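import Pool.Agent.Work.MP_8a6869_an.Stmts

/-!
# MP_8a6869_an: separability of the Hilbert spaces
-/

namespace MP8a6869

open scoped InnerProductSpace ComplexOrder
open MonoidAlgebra Filter Topology

noncomputable section

namespace Sep

/-- a Hilbert space with a countable total family is separable -/
theorem separable_of_total {H : Type} [NormedAddCommGroup H] [InnerProductSpace ℂ H] (s : Set H)
    (hs : s.Countable) (hd : (Submodule.span ℂ s).topologicalClosure = ⊤) :
    TopologicalSpace.SeparableSpace H := by
  have h1 : TopologicalSpace.IsSeparable (s : Set H) := hs.isSeparable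
  have h2 : TopologicalSpace.IsSeparable ((Submodule.span ℂ s : Submodule ℂ H) : Set H) :=
    TopologicalSpace.IsSeparable.span h1
  have h3 := h2.closure
  rw [← TopologicalSpace.isSeparable_univ_iff]
  have h4 : closure ((Submodule.span ℂ s : Submodule ℂ H) : Set H) = Set.univ := by
    have h5 := congrArg (fun p : Submodule ℂ H => (p : Set H)) hd
    simpa [Submodule.topologicalClosure_coe] using h5
  rwa [h4] at h3

theorem separable_ell2 (S : Type) [Countable S] : TopologicalSpace.SeparableSpace (ell2 S) := by
  refine separable_of_total (Set.range (delta : S → ell2 S)) (Set.countable_range _) ?_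
  rw [Submodule.topologicalClosure_eq_top_iff, Submodule.eq_bot_iff]
  intro f hf
  ext g
  have h := (Submodule.mem_orthogonal _ _).1 hf (delta g) (Submodule.subset_span ⟨g, rfl⟩)
  rw [inner_delta_left] at h
  rw [h]
  rfl

section Form

variable {A : Type} [Ring A] [StarRing A] [Algebra ℂ A] {T : TrAlg A} {C : Cov T}

theorem form_nil_left (h : A) (Y : List A) : form C h [] Y = 0 := by
  cases Y <;> simp [form]

theorem form_nil_right (h : A) (X : List A) : form C h X [] = 0 := by
  cases X with
  | nil => simp [form]
  | cons x X => cases X <;> simp [form]

/-- `form` is linear in `h` -/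
theorem form_add_h (X Y : List A) : ∀ h h' : A,
    form C (h + h') X Y = form C h X Y + form C h' X Y := by
  induction X generalizing Y with
  | nil => intro h h'; simp [form_nil_left]
  | cons x X ih =>
    intro h h'
    cases Y with
    | nil => simp [form_nil_right]
    | cons y Y =>
      cases X with
      | nil =>
        cases Y with
        | nil => simp only [form]; rw [mul_add, add_mul, map_add]
        | cons y' Y => simp [form]
      | cons x' X =>
        cases Y with
        | nil => simp [form]
        | cons y' Y =>
          simp only [form]
          rw [← ih, ← map_add, mul_add, add_mul]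

theorem form_smul_h (X Y : List A) : ∀ (c : ℂ) (h : A),
    form C (c • h) X Y = c * form C h X Y := by
  induction X generalizing Y with
  | nil => intro c h; simp [form_nil_left]
  | cons x X ih =>
    intro c h
    cases Y with
    | nil => simp [form_nil_right]
    | cons y Y =>
      cases X with
      | nil =>
        cases Y with
        | nil => simp only [form]; rw [mul_smul_comm, smul_mul_assoc, map_smul, smul_eq_mul]
        | cons y' Y => simp [form]
      | cons x' X =>
        cases Y with
        | nil => simp [form]
        | cons y' Y =>
          simp only [form]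
          rw [← ih, ← map_smul, mul_smul_comm, smul_mul_assoc]

theorem form_add (Z X Y : List A) (a b : A) : ∀ h : A,
    form C h Z (X ++ (a + b) :: Y) = form C h Z (X ++ a :: Y) + form C h Z (X ++ b :: Y) := by
  induction Z generalizing X with
  | nil => intro h; simp [form_nil_left]
  | cons z Z ih =>
    intro h
    cases X with
    | nil =>
      simp only [List.nil_append]
      cases Z with
      | nil =>
        cases Y with
        | nil => simp only [form]; rw [mul_add, map_add]
        | cons y Y => simp [form]
      | cons z' Z =>
        cases Y with
        | nil => simp [form]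
        | cons y Y =>
          simp only [form]
          rw [mul_add, map_add, form_add_h]
    | cons x X =>
      cases Z with
      | nil =>
        cases X with
        | nil => simp [form]
        | cons x' X => simp [form]
      | cons z' Z =>
        cases X with
        | nil =>
          simp only [List.nil_append, List.cons_append, form]
          exact ih [] _
        | cons x' X =>
          simp only [List.cons_append, form]
          exact ih (x' :: X) _

theorem form_smul (Z X Y : List A) (c : ℂ) (a : A) : ∀ h : A,
    form C h Z (X ++ (c • a) :: Y) = c * form C h Z (X ++ a :: Y) := by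
  induction Z generalizing X with
  | nil => intro h; simp [form_nil_left]
  | cons z Z ih =>
    intro h
    cases X with
    | nil =>
      simp only [List.nil_append]
      cases Z with
      | nil =>
        cases Y with
        | nil => simp only [form]; rw [mul_smul_comm, map_smul, smul_eq_mul]
        | cons y Y => simp [form]
      | cons z' Z =>
        cases Y with
        | nil => simp [form]
        | cons y Y =>
          simp only [form]
          rw [mul_smul_comm, map_smul, form_smul_h]
    | cons x X =>
      cases Z with
      | nil =>
        cases X with
        | nil => simp [form]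
        | cons x' X => simp [form]
      | cons z' Z =>
        cases X with
        | nil =>
          simp only [List.nil_append, List.cons_append, form]
          exact ih [] _
        | cons x' X =>
          simp only [List.cons_append, form]
          exact ih (x' :: X) _

theorem ext_vec (F : LeftSys C) {a b : F.H} (h : ∀ Z, ⟪F.vec Z, a⟫_ℂ = ⟪F.vec Z, b⟫_ℂ) : a = b := by
  have hd : Dense ((Submodule.span ℂ (Set.range F.vec) : Submodule ℂ F.H) : Set F.H) := by
    rw [Submodule.dense_iff_topologicalClosure_eq_top]
    exact F.dense
  refine hd.eq_of_inner_right ℂ ?_
  intro v hv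
  induction hv using Submodule.span_induction with
  | mem z hz =>
    obtain ⟨Z, rfl⟩ := hz
    exact h Z
  | zero => simp
  | add x y _ _ hx hy => rw [inner_add_left, inner_add_left, hx, hy]
  | smul c x _ hx => rw [inner_smul_left, inner_smul_left, hx]

theorem vec_add (F : LeftSys C) (X Y : List A) (a b : A) :
    F.vec (X ++ (a + b) :: Y) = F.vec (X ++ a :: Y) + F.vec (X ++ b :: Y) := by
  refine ext_vec F fun Z => ?_
  rw [inner_add_right, F.inner_vec, F.inner_vec, F.inner_vec, form_add]

theorem vec_smul (F : LeftSys C) (X Y : List A) (c : ℂ) (a : A) :
    F.vec (X ++ (c • a) :: Y) = c • F.vec (X ++ a :: Y) := by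
  refine ext_vec F fun Z => ?_
  rw [inner_smul_right, F.inner_vec, F.inner_vec, form_smul]

/-- the vectors of the lists of elements of a generating set are total -/
theorem vec_mem (F : LeftSys C) (S : Set A) (hS : Submodule.span ℂ S = ⊤) (X : List A) :
    ∀ Y : List A, (∀ y ∈ Y, y ∈ S) →
      F.vec (X ++ Y) ∈ Submodule.span ℂ (F.vec '' {Y : List A | ∀ y ∈ Y, y ∈ S}) := by
  induction X using List.reverseRecOn with
  | nil =>
    intro Y hY
    exact Submodule.subset_span ⟨Y, hY, by simp⟩
  | append_singleton X a ih =>
    intro Y hY
    have ha : a ∈ Submodule.span ℂ S := by rw [hS]; trivial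
    rw [List.append_assoc, List.singleton_append]
    induction ha using Submodule.span_induction with
    | mem a ha =>
      refine ih (a :: Y) fun y hy => ?_
      rcases List.mem_cons.1 hy with h | h
      · rw [h]; exact ha
      · exact hY y h
    | zero =>
      have h := vec_smul F X Y 0 (0 : A)
      rw [smul_zero, zero_smul] at h
      rw [h]
      exact Submodule.zero_mem _
    | add a b _ _ h1 h2 =>
      rw [vec_add]
      exact Submodule.add_mem _ h1 h2
    | smul c a _ h1 =>
      rw [vec_smul]
      exact Submodule.smul_mem _ c h1

theorem separable_of_span (F : LeftSys C) (S : Set A) (hc : S.Countable)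
    (hS : Submodule.span ℂ S = ⊤) : TopologicalSpace.SeparableSpace F.H := by
  refine separable_of_total (F.vec '' {Y : List A | ∀ y ∈ Y, y ∈ S}) ?_ ?_
  · have h1 : Countable S := hc.to_subtype
    rw [← Set.range_list_map_coe]
    exact (Set.countable_range _).image _
  · rw [← F.dense]
    congr 1
    refine le_antisymm (Submodule.span_mono (Set.image_subset_range _ _)) ?_
    refine Submodule.span_le.2 ?_
    rintro _ ⟨X, rfl⟩
    have h := vec_mem F S hS X [] (by simp)
    rwa [List.append_nil] at h

end Form

/-- the algebra `M_3(ℂ)[G]` has a countable generating set -/
theorem span_AG (G : Type) [Group G] [Countable G] :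
    ∃ S : Set (AG G), S.Countable ∧ Submodule.span ℂ S = ⊤ := by
  refine ⟨Set.range fun p : G × Fin 3 × Fin 3 =>
    (single p.1 (Matrix.single p.2.1 p.2.2 1) : AG G), Set.countable_range _, ?_⟩
  rw [eq_top_iff]
  intro x _
  induction x using MonoidAlgebra.induction_linear with
  | zero => exact Submodule.zero_mem _
  | add x y hx hy => exact Submodule.add_mem _ (hx trivial) (hy trivial)
  | single g m =>
    have h : (single g m : AG G) =
        ∑ i, ∑ j, m i j • (single g (Matrix.single i j 1) : AG G) := by
      conv_lhs => rw [Matrix.matrix_eq_sum_single m]
      rw [← MonoidAlgebra.singleAddHom_apply, map_sum]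
      refine Finset.sum_congr rfl fun i _ => ?_
      rw [map_sum]
      refine Finset.sum_congr rfl fun j _ => ?_
      rw [MonoidAlgebra.singleAddHom_apply, MonoidAlgebra.smul_single, Matrix.smul_single,
        smul_eq_mul, mul_one]
    rw [h]
    refine Submodule.sum_mem _ fun i _ => Submodule.sum_mem _ fun j _ => ?_
    exact Submodule.smul_mem _ _ (Submodule.subset_span ⟨(g, i, j), rfl⟩)

theorem separable_fock (G : Type) [Group G] [Countable G] {C : Cov (trA G)} (F : LeftSys C) :
    TopologicalSpace.SeparableSpace F.H := by
  obtain ⟨S, h1, h2⟩ := span_AG G
  exact separable_of_span F S h1 h2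

end Sep

end

end MP8a6869
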