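import Pool.Agent.Work.MP_8a6869_an.Sys

/-!
# MP_8a6869_an: exact statements of the items
-/

namespace MP8a6869

open scoped InnerProductSpace ComplexOrder
open MonoidAlgebra Filter Topology

noncomputable section

/-! ## K. Hilbert spaces from kernels -/

/-- [K1] Kolmogorov decomposition of a positive kernel. -/
def KolStmt : Prop :=
  ∀ (S : Type) (K : S → S → ℂ), (∀ s t, K t s = (starRingEnd ℂ) (K s t)) →
    (∀ (n : Type) [Fintype n] (s : n → S) (c : n → ℂ),
      0 ≤ ∑ i, ∑ j, (starRingEnd ℂ) (c i) * c j * K (s i) (s j)) →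
    ∃ (H : Type) (_ : NormedAddCommGroup H) (_ : InnerProductSpace ℂ H) (_ : CompleteSpace H)
      (vec : S → H), (∀ s t, ⟪vec s, vec t⟫_ℂ = K s t) ∧
        (Submodule.span ℂ (Set.range vec)).topologicalClosure = ⊤

/-- [K2] Bounded operators are defined by their values on a total family. -/
def ExtStmt : Prop :=
  ∀ (H H' : Type) [NormedAddCommGroup H] [InnerProductSpace ℂ H] [CompleteSpace H]
    [NormedAddCommGroup H'] [InnerProductSpace ℂ H'] [CompleteSpace H']
    (S : Type) (vec : S → H) (w : S → H') (κ : ℝ),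
    (Submodule.span ℂ (Set.range vec)).topologicalClosure = ⊤ →
    (∀ (n : Type) [Fintype n] (s : n → S) (c : n → ℂ),
      ‖∑ i, c i • w (s i)‖ ≤ κ * ‖∑ i, c i • vec (s i)‖) →
    ∃ T : H →L[ℂ] H', ∀ s, T (vec s) = w s

/-- [K3] The conjugate linear isometric version. -/
def ExtConjStmt : Prop :=
  ∀ (H : Type) [NormedAddCommGroup H] [InnerProductSpace ℂ H] [CompleteSpace H]
    (S : Type) (vec w : S → H),
    (Submodule.span ℂ (Set.range vec)).topologicalClosure = ⊤ →
    (∀ s t, ⟪w s, w t⟫_ℂ = ⟪vec t, vec s⟫_ℂ) →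
    ∃ J : H → H, (∀ x y, J (x + y) = J x + J y) ∧
      (∀ (c : ℂ) (x), J (c • x) = (starRingEnd ℂ) c • J x) ∧
      (∀ x y, ⟪J x, J y⟫_ℂ = ⟪y, x⟫_ℂ) ∧ ∀ s, J (vec s) = w s

/-! ## P. Positivity -/

/-- [P1] In a star algebra with positive trace all of whose elements are dominated, the trace of
the product of two positive elements is `≥ 0`. -/
def PSDTStmt : Prop :=
  ∀ (B : Type) [Ring B] [StarRing B] [Algebra ℂ B] [StarModule ℂ B] (T : TrAlg B),
    (∀ b : B, Dominated b) → ∀ k y : B, (∀ c, 0 ≤ T.τ (star c * k * c)) →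
      (∀ c, 0 ≤ T.τ (star c * y * c)) → 0 ≤ T.τ (k * y)

/-- [P2] All elements of matrix algebras and group rings are dominated if all elements of the
coefficient ring are. -/
def DomStmt : Prop :=
  (∀ z : ℂ, Dominated z) ∧
  (∀ (B : Type) [Ring B] [StarRing B] [Algebra ℂ B] [StarModule ℂ B], (∀ b : B, Dominated b) →
    ∀ (n : Type) [Fintype n] [DecidableEq n] (X : Matrix n n B), Dominated X) ∧
  (∀ (R : Type) [Ring R] [StarRing R] [Algebra ℂ R] [StarModule ℂ R], (∀ r : R, Dominated r) →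
    ∀ (G : Type) [Group G] (x : MonoidAlgebra R G), Dominated x)

/-- [P3] A conditional expectation pair defines a covariance. -/
def CovStmt : Prop :=
  ∀ (A B : Type) [Ring A] [StarRing A] [Algebra ℂ A] [StarModule ℂ A] [Ring B] [StarRing B]
    [Algebra ℂ B] [StarModule ℂ B] (TA : TrAlg A) (TB : TrAlg B) (CP : CondPair TA TB),
    (∀ (n : Type) [Fintype n] [DecidableEq n] (X : Matrix n n B), Dominated X) →
    (∀ b : B, (∀ c, TB.τ (b * c) = 0) → b = 0) →
    ∃ C : Cov TA, ∀ x, C.E x = CP.Θ (CP.P x)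

/-! ## T. The representation theta -/

/-- [T1] The support of `theta φ f` consists of images of words at least as long as `f`. -/
def ThetaSuppStmt : Prop :=
  ∀ (G : Type) [Group G] (I : ℕ) (φ : FreeGroup (Fin I) →* G) (f : FreeGroup (Fin I)) (g : G),
    (theta φ f : AG G).coeff g ≠ 0 → ∃ f' : FreeGroup (Fin I), φ f' = g ∧ f.norm ≤ f'.norm

/-- [T2] The conditional expectation pair of `theta`. -/
def PairStmt : Prop :=
  ∀ (G : Type) [Group G] (I : ℕ) (φ : FreeGroup (Fin I) →* G), Function.Injective φ →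
    ∃ CP : CondPair (trA G) (trB (FreeGroup (Fin I))),
      (∀ f, CP.Θ (single f 1) = (theta φ f : AG G)) ∧
      ∀ x f, (CP.P x).coeff f = (trA G).τ (x * star (theta φ f : AG G))

/-- [T3] Separating finitely many double cosets from a subgroup of infinite index. -/
def NeumStmt : Prop :=
  ∀ (G : Type) [Group G] (I : ℕ) (φ : FreeGroup (Fin I) →* G), φ.range.index = 0 →
    ∀ (n : Type) [Finite n] (x y : n → AG G), ∃ g : G, ∀ j, ∀ f : FreeGroup (Fin I),
      (trA G).τ (star (y j) * single g 1 * x j * star (theta φ f : AG G)) = 0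

/-- [T4] The coefficients. Here `C.E x = Θ (P x)` for the pair of [T2]. -/
def CoefStmt : Prop :=
  ∀ (G : Type) [Group G] (I : ℕ) (φ : FreeGroup (Fin I) →* G), Function.Injective φ →
    ∀ (CP : CondPair (trA G) (trB (FreeGroup (Fin I)))) (C : Cov (trA G)),
      (∀ f, CP.Θ (single f 1) = (theta φ f : AG G)) →
      (∀ x f, (CP.P x).coeff f = (trA G).τ (x * star (theta φ f : AG G))) →
      (∀ x, C.E x = CP.Θ (CP.P x)) → ∀ i : Fin I,
        let b := φ (FreeGroup.of i)
        let e : AG G := single 1 (Matrix.single 0 0 1)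
        form C 1 [e, single 1 (Matrix.single 2 2 1)] [e, single 1 (Matrix.single 2 2 1)] = 1 / 9 ∧
        form C 1 [e, single 1 (Matrix.single 2 2 1)]
          [single b (Matrix.single 0 0 1), single b⁻¹ (Matrix.single 2 2 1)] = 1 / 9 * (2 / 5) ∧
        form C 1 [e, single 1 (Matrix.single 2 2 1)]
          [single (b ^ 2) (Matrix.single 0 0 1), single b⁻¹ (Matrix.single 2 2 1)] =
            1 / 9 * (-(3 / 5 * Complex.I)) ∧
        form C 1 [e, single 1 (Matrix.single 2 2 1)]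
          [single (b ^ 3) (Matrix.single 0 0 1), single b⁻¹ (Matrix.single 2 2 1)] =
            1 / 9 * (2 / 5)

/-! ## F. The Fock space -/

/-- [F1] The kernel is hermitian. -/
def FormHermStmt : Prop :=
  ∀ (A : Type) [Ring A] [StarRing A] [Algebra ℂ A] [StarModule ℂ A] (T : TrAlg A) (C : Cov T)
    (h : A) (X Y : List A), form C (star h) Y X = (starRingEnd ℂ) (form C h X Y)

/-- [F2] The kernel is positive. -/
def FormPosStmt : Prop :=
  ∀ (A : Type) [Ring A] [StarRing A] [Algebra ℂ A] [StarModule ℂ A] (T : TrAlg A) (C : Cov T)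
    (n : Type) [Fintype n] (X : n → List A) (c : n → ℂ),
    0 ≤ ∑ i, ∑ j, (starRingEnd ℂ) (c i) * c j * form C 1 (X i) (X j)

/-- [F3] The kernel is symmetric under reversal. -/
def FormRevStmt : Prop :=
  ∀ (A : Type) [Ring A] [StarRing A] [Algebra ℂ A] [StarModule ℂ A] (T : TrAlg A) (C : Cov T)
    (X Y : List A), form C 1 (revStar X) (revStar Y) = form C 1 Y X

/-- [F4] The left system exists. -/
def LeftSysStmt : Prop :=
  ∀ (A : Type) [Ring A] [StarRing A] [Algebra ℂ A] [StarModule ℂ A] (T : TrAlg A) (C : Cov T),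
    (∀ a : A, Dominated a) → Nonempty (LeftSys C)

/-- [F5] The left system extends to a Fock system. -/
def FockSysStmt : Prop :=
  ∀ (A : Type) [Ring A] [StarRing A] [Algebra ℂ A] [StarModule ℂ A] (T : TrAlg A) (C : Cov T)
    (_ : LeftSys C), Nonempty (FockSys C)

/-- [F6] The vacuum state is tracial and the vacuum vector is separating. -/
def TracStmt : Prop :=
  ∀ (A : Type) [Ring A] [StarRing A] [Algebra ℂ A] [StarModule ℂ A] (T : TrAlg A) (C : Cov T)
    (F : FockSys C), F.Tracial ∧ F.Separating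

/-- [F7] Central vectors of the Fock space are multiples of the vacuum. -/
def CentStmt : Prop :=
  ∀ (A : Type) [Ring A] [StarRing A] [Algebra ℂ A] [StarModule ℂ A] (T : TrAlg A) (C : Cov T)
    (F : FockSys C), T.τ 1 = 1 → ∀ (G : Type) [Group G] (u : G →* unitary A),
    (∀ (n : Type) [Finite n] (x y : n → A), ∃ g, ∀ j, C.E (star (y j) * (u g : A) * x j) = 0) →
    (∀ f : A →ₗ[ℂ] ℂ, (∃ κ : ℝ, ∀ x, ‖f x‖ ^ 2 ≤ κ * (T.τ (star x * x)).re) →
      (∀ a x, f (a * x) = f (x * a)) → ∀ x, f x = f 1 * T.τ x) →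
    ∀ v : F.H, (∀ a, F.lam a v = F.rho a v) → ∃ c : ℂ, v = c • F.Om

/-- [F8] Bounded tracial functionals of `M_3(ℂ[G])`, `G` icc. -/
def L2FStmt : Prop :=
  ∀ (G : Type) [Group G], (∀ g : G, g ≠ 1 → (Set.range fun h : G => h * g * h⁻¹).Infinite) →
    ∀ f : AG G →ₗ[ℂ] ℂ, (∃ κ : ℝ, ∀ x, ‖f x‖ ^ 2 ≤ κ * ((trA G).τ (star x * x)).re) →
      (∀ a x, f (a * x) = f (x * a)) → ∀ x, f x = f 1 * (trA G).τ x

/-- [F9] The algebra of the Fock system is a II_1 factor if central vectors are multiples of the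
vacuum. -/
def FactStmt : Prop :=
  ∀ (A : Type) [Ring A] [StarRing A] [Algebra ℂ A] [StarModule ℂ A] (T : TrAlg A) (C : Cov T)
    (F : FockSys C) (h1 : T.τ 1 = 1) (ht : F.Tracial) (hs : F.Separating) (G : Type) [Group G]
    [Infinite G] (u : G →* unitary A), (∀ g, g ≠ 1 → T.τ (u g : A) = 0) →
    (∀ v : F.H, (∀ a, F.lam a v = F.rho a v) → ∃ c : ℂ, v = c • F.Om) →
    (F.vna h1 ht hs).IsII1Factor

/-- [F10] The embedding of `L(G)`. -/
def IotaStmt : Prop :=
  ∀ (A : Type) [Ring A] [StarRing A] [Algebra ℂ A] [StarModule ℂ A] (T : TrAlg A) (C : Cov T)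
    (F : FockSys C) (h1 : T.τ 1 = 1) (ht : F.Tracial) (hs : F.Separating) (G : Type) [Group G]
    (u : G →* unitary A), (∀ x : A, {g : G | T.τ (x * (u g : A)) ≠ 0}.Finite) →
    (∀ g, g ≠ 1 → T.τ (u g : A) = 0) →
    ∃ ι : Embedding (LG G) (F.vna h1 ht hs), ∀ g : G,
      ((ι.hom ⟨leftReg G g, leftReg_mem G g⟩ : (F.vna h1 ht hs).Elt) :
        (F.vna h1 ht hs).H →L[ℂ] (F.vna h1 ht hs).H) = F.lam (u g : A)

/-! ## N. The free group side -/

/-- [N1] The norm bound for a free family. -/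
def FNormStmt : Prop :=
  ∀ (G : Type) [Group G] (I : ℕ) (φ : FreeGroup (Fin I) →* G), Function.Injective φ →
    ∀ (d : ℤ), d ≠ 0 → ∀ v : ell2 G,
      ‖∑ i, leftReg G (φ (FreeGroup.of i) ^ d) v‖ ≤ 2 * √I * ‖v‖

/-- [N2] The positivity inequality. -/
def PosStmt : Prop :=
  ∀ (G : Type) [Group G] (I : ℕ) (φ : FreeGroup (Fin I) →* G), Function.Injective φ →
    ∀ v : ell2 G, ∑ i : Fin I, ∑ m ∈ Finset.Icc 1 3,
      ‖⟪v, leftReg G (φ (FreeGroup.of i) ^ m) (rightReg G (φ (FreeGroup.of i)) v)⟫_ℂ‖ ≤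
        (4 / 3 * I + 8 * √I) * ‖v‖ ^ 2

/-- [N3] The inequality passes to existential extensions. -/
def ExiStmt : Prop :=
  ∀ (U : Ultrafilter ℕ) (G : Type) [Group G] (I : ℕ) (φ : FreeGroup (Fin I) →* G),
    Function.Injective φ → ∀ (M : TracialVNA) (ι : Embedding (LG G) M), IsExistential U ι →
    ∀ ξ : M.Elt, ∑ i : Fin I, ∑ m ∈ Finset.Icc 1 3,
      ‖M.tr (star ξ * (ι.hom ⟨leftReg G (φ (FreeGroup.of i) ^ m), leftReg_mem G _⟩ * ξ *
        ι.hom ⟨leftReg G (φ (FreeGroup.of i))⁻¹, leftReg_mem G _⟩))‖ ≤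
          (4 / 3 * I + 8 * √I) * (M.tr (star ξ * ξ)).re

/-- [N4] Free subgroups of any rank and of infinite index. -/
def FreeStmt : Prop :=
  ∀ (G : Type) [Group G] (f : FreeGroup (Fin 2) →* G), Function.Injective f → ∀ I : ℕ,
    ∃ φ : FreeGroup (Fin I) →* G, Function.Injective φ ∧ φ.range.index = 0

/-- The main theorem. -/
def MainStmt : Prop :=
  ∀ (G : Type) [Group G] [Countable G],
    (∀ g : G, g ≠ 1 → (Set.range fun h : G => h * g * h⁻¹).Infinite) →
    (∃ f : FreeGroup (Fin 2) →* G, Function.Injective f) →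
    ∃ M : TracialVNA, M.IsII1Factor ∧ TopologicalSpace.SeparableSpace M.H ∧
      ∃ ι : Embedding (LG G) M, ∀ U : Ultrafilter ℕ, ¬ IsExistential U ι

end

end MP8a6869
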