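import Pool.Agent.Work.MP_8a6869_an.Stmts

/-!
# MP_8a6869_an, item F10: the embedding of `L(G)` in the algebra of a Fock system
-/

namespace MP8a6869

open scoped InnerProductSpace ComplexOrder
open MonoidAlgebra Filter Topology

noncomputable section

namespace F10

/-! ## density in `ell2 G` -/

theorem delta_dense (G : Type) :
    (Submodule.span ℂ (Set.range (delta : G → ell2 G))).topologicalClosure = ⊤ := by
  rw [Submodule.topologicalClosure_eq_top_iff, Submodule.eq_bot_iff]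
  intro f hf
  ext g
  have h := (Submodule.mem_orthogonal _ _).1 hf (delta g) (Submodule.subset_span ⟨g, rfl⟩)
  rw [inner_delta_left] at h
  rw [h]
  rfl

theorem ext_total {S H H' : Type} [NormedAddCommGroup H] [InnerProductSpace ℂ H]
    [NormedAddCommGroup H'] [InnerProductSpace ℂ H'] {vec : S → H}
    (hd : (Submodule.span ℂ (Set.range vec)).topologicalClosure = ⊤) {T T' : H →L[ℂ] H'}
    (h : ∀ s, T (vec s) = T' (vec s)) : T = T' := by
  have hdense : Dense ((Submodule.span ℂ (Set.range vec) : Submodule ℂ H) : Set H) := by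
    rw [Submodule.dense_iff_topologicalClosure_eq_top]
    exact hd
  refine ContinuousLinearMap.ext_on hdense ?_
  rintro _ ⟨s, rfl⟩
  exact h s

/-! ## finite supports -/

variable {A : Type} [Ring A] [StarRing A] [Algebra ℂ A] {T : TrAlg A}
  {C : Cov T}

theorem form_tail (X Y : List A) : ∃ β : A, ∀ h x y : A,
    form C h (x :: X) (y :: Y) = T.τ (star x * h * y * β) := by
  induction X generalizing Y with
  | nil =>
    cases Y with
    | nil => exact ⟨1, fun h x y => by rw [form, mul_one]⟩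
    | cons y' Y => exact ⟨0, fun h x y => by simp [form]⟩
  | cons x' X ih =>
    cases Y with
    | nil => exact ⟨0, fun h x y => by simp [form]⟩
    | cons y' Y =>
      obtain ⟨β, hβ⟩ := ih Y
      refine ⟨C.E (y' * β * star x'), fun h x y => ?_⟩
      rw [form, hβ, mul_assoc, mul_assoc, T.comm, mul_assoc, C.E_symm]

theorem form_nil_left (h : A) (Y : List A) : form C h [] Y = 0 := by
  cases Y <;> simp [form]

theorem form_nil_right (h : A) (X : List A) : form C h X [] = 0 := by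
  rcases X with _ | ⟨x, _ | ⟨x', X⟩⟩ <;> simp [form]

variable (F : FockSys C)

theorem vec_nil : F.vec [] = 0 := by
  rw [← inner_self_eq_zero (𝕜 := ℂ), F.inner_vec, form_nil_left]

theorem lam_mul (a b : A) : F.lam (a * b) = F.lam a * F.lam b := by
  refine ext_total F.dense fun X => ?_
  cases X with
  | nil => rw [vec_nil, map_zero, map_zero]
  | cons x X => rw [mul_apply_eq_comp, F.lam_vec, F.lam_vec, F.lam_vec, mul_assoc]

theorem lam_one : F.lam 1 = 1 := by
  refine ext_total F.dense fun X => ?_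
  cases X with
  | nil => rw [vec_nil, map_zero, map_zero]
  | cons x X => rw [F.lam_vec, one_mul]; rfl

variable {G : Type} [Group G] (u : G →* unitary A)

/-- the unitary representation of `G` -/
def U (g : G) : F.H →L[ℂ] F.H := F.lam (u g : A)

theorem U_mul (g h : G) : U F u (g * h) = U F u g * U F u h := by
  rw [U, U, U, map_mul, ← lam_mul]
  rfl

theorem U_one : U F u 1 = 1 := by
  rw [U, map_one]
  exact lam_one F

theorem U_star (g : G) : star (U F u g) = U F u g⁻¹ := by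
  rw [U, F.lam_star, U, map_inv]
  rfl

theorem U_inner (g h : G) (x y : F.H) :
    ⟪U F u g x, U F u h y⟫_ℂ = ⟪x, U F u (g⁻¹ * h) y⟫_ℂ := by
  rw [U_mul, ← U_star, mul_apply_eq_comp, ContinuousLinearMap.star_eq_adjoint,
    ContinuousLinearMap.adjoint_inner_right]

/-- the algebraic vectors -/
abbrev V : Submodule ℂ F.H := Submodule.span ℂ (Set.range F.vec)

theorem vec_mem (X : List A) : F.vec X ∈ V F := Submodule.subset_span ⟨X, rfl⟩

theorem V_dense : Dense ((V F : Submodule ℂ F.H) : Set F.H) := by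
  rw [Submodule.dense_iff_topologicalClosure_eq_top]
  exact F.dense

variable (hfin : ∀ x : A, {g : G | T.τ (x * (u g : A)) ≠ 0}.Finite)

include hfin in
theorem fin_vec (X Y : List A) : {g : G | ⟪F.vec X, U F u g (F.vec Y)⟫_ℂ ≠ 0}.Finite := by
  cases X with
  | nil => simp [vec_nil]
  | cons x X =>
    cases Y with
    | nil => simp [vec_nil]
    | cons y Y =>
      obtain ⟨β, hβ⟩ := form_tail (C := C) X Y
      refine (hfin (y * β * star x)).subset ?_
      intro g hg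
      rw [Set.mem_ofPred_eq, U, F.lam_vec, F.inner_vec, hβ] at hg
      rw [Set.mem_ofPred_eq]
      intro h0
      apply hg
      have e1 : star x * 1 * ((u g : A) * y) * β = (star x * (u g : A)) * (y * β) := by
        simp only [mul_one, mul_assoc]
      have e2 : y * β * star x * (u g : A) = (y * β) * (star x * (u g : A)) := by
        simp only [mul_assoc]
      rw [e1, T.comm, ← e2, h0]

include hfin in
theorem fin_V {ζ' ζ : F.H} (h' : ζ' ∈ V F) (h : ζ ∈ V F) :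
    {g : G | ⟪ζ', U F u g ζ⟫_ℂ ≠ 0}.Finite := by
  have h1 : ∀ X : List A, {g : G | ⟪F.vec X, U F u g ζ⟫_ℂ ≠ 0}.Finite := by
    intro X
    refine Submodule.span_induction (p := fun ζ _ =>
      {g : G | ⟪F.vec X, U F u g ζ⟫_ℂ ≠ 0}.Finite) ?_ ?_ ?_ ?_ h
    · rintro _ ⟨Y, rfl⟩
      exact fin_vec F u hfin X Y
    · simp
    · intro x y _ _ hx hy
      refine (hx.union hy).subset ?_
      intro g hg
      rw [Set.mem_ofPred_eq, map_add, inner_add_right] at hg
      by_contra h2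
      rw [Set.mem_union, not_or] at h2
      simp only [Set.mem_ofPred_eq, not_not] at h2
      exact hg (by rw [h2.1, h2.2, add_zero])
    · intro c x _ hx
      refine hx.subset ?_
      intro g hg
      rw [Set.mem_ofPred_eq, map_smul, inner_smul_right] at hg
      exact right_ne_zero_of_mul hg
  refine Submodule.span_induction (p := fun ζ' _ =>
      {g : G | ⟪ζ', U F u g ζ⟫_ℂ ≠ 0}.Finite) ?_ ?_ ?_ ?_ h'
  · rintro _ ⟨X, rfl⟩
    exact h1 X
  · simp
  · intro x y _ _ hx hy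
    refine (hx.union hy).subset ?_
    intro g hg
    rw [Set.mem_ofPred_eq, inner_add_left] at hg
    by_contra h2
    rw [Set.mem_union, not_or] at h2
    simp only [Set.mem_ofPred_eq, not_not] at h2
    exact hg (by rw [h2.1, h2.2, add_zero])
  · intro c x _ hx
    refine hx.subset ?_
    intro g hg
    rw [Set.mem_ofPred_eq, inner_smul_left] at hg
    exact right_ne_zero_of_mul hg

/-! ## the operators `C_ζ` -/

omit [Group G] in
open Classical in
theorem inner_delta_delta (g h : G) :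
    ⟪(delta g : ell2 G), delta h⟫_ℂ = if g = h then 1 else 0 := by
  rw [inner_delta_left, delta, lp.single_apply, Pi.single_apply]

include hfin in
theorem exists_Cop (hExt : ExtStmt) {ζ : F.H} (hζ : ζ ∈ V F) :
    ∃ S : ell2 G →L[ℂ] F.H, ∀ g, S (delta g) = U F u g ζ := by
  classical
  have hf := fin_V F u hfin hζ hζ
  set f : G → ℂ := fun g => ⟪ζ, U F u g ζ⟫_ℂ with hfdef
  let Tf : ell2 G →L[ℂ] ell2 G := ∑ k ∈ hf.toFinset, f k • rightReg G k
  have hTf : ∀ g h : G, ⟪(delta g : ell2 G), Tf (delta h)⟫_ℂ = f (g⁻¹ * h) := by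
    intro g h
    have e1 : Tf (delta h) = ∑ k ∈ hf.toFinset, f k • delta (h * k⁻¹) := by
      rw [_root_.sum_apply]
      refine Finset.sum_congr rfl fun k _ => ?_
      rw [_root_.smul_apply, rightReg_delta]
    rw [e1, inner_sum]
    have e2 : ∀ k ∈ hf.toFinset, ⟪(delta g : ell2 G), f k • delta (h * k⁻¹)⟫_ℂ =
        if k = g⁻¹ * h then f k else 0 := by
      intro k _
      rw [inner_smul_right, inner_delta_delta]
      by_cases hk : k = g⁻¹ * h
      · rw [if_pos hk, if_pos (by rw [hk]; group), mul_one]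
      · rw [if_neg hk, if_neg (by intro h2; apply hk; rw [h2]; group), mul_zero]
    rw [Finset.sum_congr rfl e2, Finset.sum_ite_eq']
    by_cases hk : g⁻¹ * h ∈ hf.toFinset
    · rw [if_pos hk]
    · rw [if_neg hk]
      rw [Set.Finite.mem_toFinset, Set.mem_ofPred_eq, not_not] at hk
      exact hk.symm
  refine hExt (ell2 G) F.H G delta (fun g => U F u g ζ) (√‖Tf‖) (delta_dense G) ?_
  intro n _ s c
  have key : ‖∑ i, c i • U F u (s i) ζ‖ ^ 2 ≤ ‖Tf‖ * ‖∑ i, c i • (delta (s i) : ell2 G)‖ ^ 2 := by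
    have e3 : ⟪∑ i, c i • U F u (s i) ζ, ∑ i, c i • U F u (s i) ζ⟫_ℂ =
        ⟪∑ i, c i • (delta (s i) : ell2 G), Tf (∑ i, c i • (delta (s i) : ell2 G))⟫_ℂ := by
      rw [map_sum]
      simp only [map_smul, sum_inner, inner_sum, inner_smul_left, inner_smul_right, hTf, U_inner]
      rfl
    have e4 := norm_inner_le_norm (𝕜 := ℂ) (∑ i, c i • (delta (s i) : ell2 G))
      (Tf (∑ i, c i • (delta (s i) : ell2 G)))
    rw [← e3, inner_self_eq_norm_sq_to_K] at e4
    have e5 := Tf.le_opNorm (∑ i, c i • (delta (s i) : ell2 G))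
    have e6 : ‖((‖∑ i, c i • U F u (s i) ζ‖ : ℂ)) ^ 2‖ = ‖∑ i, c i • U F u (s i) ζ‖ ^ 2 := by
      rw [norm_pow, Complex.norm_real, norm_norm]
    have e7 : ‖∑ i, c i • U F u (s i) ζ‖ ^ 2 ≤ ‖∑ i, c i • (delta (s i) : ell2 G)‖ *
        ‖Tf (∑ i, c i • (delta (s i) : ell2 G))‖ := by
      rw [← e6]; exact e4
    nlinarith [norm_nonneg (∑ i, c i • (delta (s i) : ell2 G)),
      norm_nonneg (Tf (∑ i, c i • (delta (s i) : ell2 G)))]
  have h0 : 0 ≤ √‖Tf‖ * ‖∑ i, c i • (delta (s i) : ell2 G)‖ := by positivity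
  refine le_of_sq_le_sq ?_ h0
  rw [mul_pow, Real.sq_sqrt (norm_nonneg _)]
  exact key

/-- `C_ζ` -/
def Cop (hExt : ExtStmt) {ζ : F.H} (hζ : ζ ∈ V F) : ell2 G →L[ℂ] F.H :=
  Classical.choose (exists_Cop F u hfin hExt hζ)

theorem Cop_delta (hExt : ExtStmt) {ζ : F.H} (hζ : ζ ∈ V F) (g : G) :
    Cop F u hfin hExt hζ (delta g) = U F u g ζ :=
  Classical.choose_spec (exists_Cop F u hfin hExt hζ) g

theorem Cop_one (hExt : ExtStmt) {ζ : F.H} (hζ : ζ ∈ V F) :
    Cop F u hfin hExt hζ (delta 1) = ζ := by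
  rw [Cop_delta, U_one]
  rfl

/-- `C_ζ'^* C_ζ` commutes with `λ(G)`, hence with `L(G)`. -/
theorem adj_comm (hExt : ExtStmt) {ζ' ζ : F.H} (h' : ζ' ∈ V F) (h : ζ ∈ V F)
    {x : ell2 G →L[ℂ] ell2 G} (hx : x ∈ LGalg G) :
    ((Cop F u hfin hExt h').adjoint ∘L (Cop F u hfin hExt h)) * x =
      x * ((Cop F u hfin hExt h').adjoint ∘L (Cop F u hfin hExt h)) := by
  refine comm_of_comm_leftReg G hx fun g => ?_
  refine ext_total (delta_dense G) fun a => ?_
  have h2 : ∀ y y' : ell2 G, (∀ b : G, ⟪delta b, y⟫_ℂ = ⟪delta b, y'⟫_ℂ) → y = y' := by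
    intro y y' hy
    ext b
    have := hy b
    rwa [inner_delta_left, inner_delta_left] at this
  refine h2 _ _ fun b => ?_
  rw [mul_apply_eq_comp, mul_apply_eq_comp, leftReg_delta]
  have h3 : ⟪delta b, leftReg G g (((Cop F u hfin hExt h').adjoint ∘L
      (Cop F u hfin hExt h)) (delta a))⟫_ℂ = ⟪delta (g⁻¹ * b), ((Cop F u hfin hExt h').adjoint ∘L
      (Cop F u hfin hExt h)) (delta a)⟫_ℂ := by
    rw [← leftReg_delta, ← star_leftReg, ContinuousLinearMap.star_eq_adjoint,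
      ContinuousLinearMap.adjoint_inner_left]
  rw [h3, ContinuousLinearMap.comp_apply, ContinuousLinearMap.comp_apply,
    ContinuousLinearMap.adjoint_inner_right, ContinuousLinearMap.adjoint_inner_right, Cop_delta,
    Cop_delta, Cop_delta, Cop_delta, U_inner, U_inner]
  congr 3
  group

theorem inner_Cop (hExt : ExtStmt) {ζ' ζ : F.H} (h' : ζ' ∈ V F) (h : ζ ∈ V F)
    {x : ell2 G →L[ℂ] ell2 G} (hx : x ∈ LGalg G) (a b : ell2 G) :
    ⟪Cop F u hfin hExt h' a, Cop F u hfin hExt h (x b)⟫_ℂ =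
      ⟪Cop F u hfin hExt h' (star x a), Cop F u hfin hExt h b⟫_ℂ := by
  have h1 := congrArg (fun t : ell2 G →L[ℂ] ell2 G => ⟪a, t b⟫_ℂ)
    (adj_comm F u hfin hExt h' h hx)
  simp only [mul_apply_eq_comp, ContinuousLinearMap.comp_apply] at h1
  rw [ContinuousLinearMap.adjoint_inner_right] at h1
  rw [h1, ← ContinuousLinearMap.adjoint_inner_left x, ContinuousLinearMap.adjoint_inner_right,
    ContinuousLinearMap.star_eq_adjoint]

omit [Group G] in
/-- if `S ≥ 0` commutes with `x` and `x^*` then `⟨S x v, x v⟩ ≤ |x|^2 ⟨S v, v⟩`. -/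
theorem pos_comm_bound {K : Type} [NormedAddCommGroup K] [InnerProductSpace ℂ K]
    [CompleteSpace K] {S x : K →L[ℂ] K} (hS0 : 0 ≤ S) (hSx : S * x = x * S)
    (hSx' : S * star x = star x * S) (v : K) :
    (⟪x v, S (x v)⟫_ℂ).re ≤ ‖x‖ ^ 2 * (⟪v, S v⟫_ℂ).re := by
  have hR : 0 ≤ algebraMap ℝ (K →L[ℂ] K) (‖x‖ ^ 2) - star x * x := by
    rw [sub_nonneg]
    exact CStarAlgebra.star_mul_le_algebraMap_norm_sq
  have hcomm : Commute S (algebraMap ℝ (K →L[ℂ] K) (‖x‖ ^ 2) - star x * x) := by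
    refine Commute.sub_right ?_ ?_
    · exact (Algebra.commutes _ _).symm
    · change S * (star x * x) = star x * x * S
      rw [← mul_assoc, hSx', mul_assoc, hSx, mul_assoc]
  have hpos := Commute.mul_nonneg hS0 hR hcomm
  rw [ContinuousLinearMap.nonneg_iff_isPositive] at hpos
  have h1 := hpos.re_inner_nonneg_right v
  have h2 : ⟪v, (S * (algebraMap ℝ (K →L[ℂ] K) (‖x‖ ^ 2) - star x * x)) v⟫_ℂ =
      ((‖x‖ ^ 2 : ℝ) : ℂ) * ⟪v, S v⟫_ℂ - ⟪x v, S (x v)⟫_ℂ := by
    have e1 : S * (algebraMap ℝ (K →L[ℂ] K) (‖x‖ ^ 2) - star x * x) =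
        (((‖x‖ ^ 2 : ℝ) : ℂ)) • S - star x * (S * x) := by
      rw [mul_sub, ← mul_assoc S, hSx', mul_assoc, Algebra.algebraMap_eq_smul_one, mul_smul_comm,
        mul_one]
      congr 1
    rw [e1, _root_.sub_apply, inner_sub_right, _root_.smul_apply, inner_smul_right,
      mul_apply_eq_comp, mul_apply_eq_comp, ContinuousLinearMap.star_eq_adjoint,
      ContinuousLinearMap.adjoint_inner_right]
  rw [h2] at h1
  have h3 : (((‖x‖ ^ 2 : ℝ) : ℂ) * ⟪v, S v⟫_ℂ - ⟪x v, S (x v)⟫_ℂ).re =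
      ‖x‖ ^ 2 * (⟪v, S v⟫_ℂ).re - (⟪x v, S (x v)⟫_ℂ).re := by
    rw [Complex.sub_re, Complex.re_ofReal_mul]
  have h4 : 0 ≤ (((‖x‖ ^ 2 : ℝ) : ℂ) * ⟪v, S v⟫_ℂ - ⟪x v, S (x v)⟫_ℂ).re := h1
  rw [h3] at h4
  linarith

theorem norm_Cop_le (hExt : ExtStmt) {ζ : F.H} (hζ : ζ ∈ V F)
    {x : ell2 G →L[ℂ] ell2 G} (hx : x ∈ LGalg G) :
    ‖Cop F u hfin hExt hζ (x (delta 1))‖ ≤ ‖x‖ * ‖ζ‖ := by
  set Cz := Cop F u hfin hExt hζ with hCz
  set S : ell2 G →L[ℂ] ell2 G := Cz.adjoint ∘L Cz with hS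
  have hSx : S * x = x * S := adj_comm F u hfin hExt hζ hζ hx
  have hxs : star x ∈ LGalg G := star_mem hx
  have hSx' : S * star x = star x * S := adj_comm F u hfin hExt hζ hζ hxs
  have hS0 : 0 ≤ S := by
    rw [ContinuousLinearMap.nonneg_iff_isPositive, ContinuousLinearMap.isPositive_def']
    refine ⟨?_, fun y => ?_⟩
    · rw [hS, ContinuousLinearMap.isSelfAdjoint_iff', ContinuousLinearMap.adjoint_comp,
        ContinuousLinearMap.adjoint_adjoint]
    · rw [ContinuousLinearMap.reApplyInnerSelf, hS, ContinuousLinearMap.comp_apply,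
        ContinuousLinearMap.adjoint_inner_left, inner_self_eq_norm_sq_to_K]
      norm_cast
      positivity
  have h1 := pos_comm_bound hS0 hSx hSx' (delta (1 : G))
  have h2 : ∀ y : ell2 G, (⟪y, S y⟫_ℂ).re = ‖Cz y‖ ^ 2 := by
    intro y
    rw [hS, ContinuousLinearMap.comp_apply, ContinuousLinearMap.adjoint_inner_right,
      inner_self_eq_norm_sq_to_K]
    norm_cast
  rw [h2, h2, hCz, Cop_one, ← mul_pow] at h1
  exact le_of_sq_le_sq h1 (by positivity)

theorem Cop_unique (hExt : ExtStmt) {ζ : F.H} (hζ : ζ ∈ V F) {S : ell2 G →L[ℂ] F.H}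
    (hS : ∀ g, S (delta g) = U F u g ζ) : S = Cop F u hfin hExt hζ :=
  ext_total (delta_dense G) fun g => by rw [hS, Cop_delta]

theorem Cop_sum (hExt : ExtStmt) {n : Type} [Fintype n] (X : n → List A) (c : n → ℂ)
    (h : ∑ i, c i • F.vec (X i) ∈ V F) :
    ∑ i, c i • Cop F u hfin hExt (vec_mem F (X i)) = Cop F u hfin hExt h := by
  refine Cop_unique F u hfin hExt h fun g => ?_
  rw [_root_.sum_apply, map_sum]
  refine Finset.sum_congr rfl fun i _ => ?_
  rw [_root_.smul_apply, Cop_delta, map_smul]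

theorem exists_iota0 (hExt : ExtStmt) {x : ell2 G →L[ℂ] ell2 G} (hx : x ∈ LGalg G) :
    ∃ R : F.H →L[ℂ] F.H, ∀ X, R (F.vec X) = Cop F u hfin hExt (vec_mem F X) (x (delta 1)) := by
  refine hExt F.H F.H (List A) F.vec (fun X => Cop F u hfin hExt (vec_mem F X) (x (delta 1)))
    ‖x‖ F.dense ?_
  intro n _ s c
  have hV : ∑ i, c i • F.vec (s i) ∈ V F :=
    Submodule.sum_mem _ fun i _ => Submodule.smul_mem _ _ (vec_mem F (s i))
  have h1 : ∑ i, c i • Cop F u hfin hExt (vec_mem F (s i)) (x (delta 1)) =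
      Cop F u hfin hExt hV (x (delta 1)) := by
    rw [← Cop_sum, _root_.sum_apply]
    rfl
  rw [h1]
  exact norm_Cop_le F u hfin hExt hV hx

/-- the operator `ι(x)` -/
def iota0 (hExt : ExtStmt) {x : ell2 G →L[ℂ] ell2 G} (hx : x ∈ LGalg G) : F.H →L[ℂ] F.H :=
  Classical.choose (exists_iota0 F u hfin hExt hx)

theorem iota0_vec (hExt : ExtStmt) {x : ell2 G →L[ℂ] ell2 G} (hx : x ∈ LGalg G) (X : List A) :
    iota0 F u hfin hExt hx (F.vec X) = Cop F u hfin hExt (vec_mem F X) (x (delta 1)) :=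
  Classical.choose_spec (exists_iota0 F u hfin hExt hx) X

theorem iota0_V (hExt : ExtStmt) {x : ell2 G →L[ℂ] ell2 G} (hx : x ∈ LGalg G) {ζ : F.H}
    (hζ : ζ ∈ V F) : iota0 F u hfin hExt hx ζ = Cop F u hfin hExt hζ (x (delta 1)) := by
  refine Submodule.span_induction (p := fun ζ hζ =>
    iota0 F u hfin hExt hx ζ = Cop F u hfin hExt hζ (x (delta 1))) ?_ ?_ ?_ ?_ hζ
  · rintro _ ⟨X, rfl⟩
    exact iota0_vec F u hfin hExt hx X
  · have : (0 : ell2 G →L[ℂ] F.H) = Cop F u hfin hExt (V F).zero_mem :=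
      Cop_unique F u hfin hExt _ fun g => by simp
    rw [map_zero]
    change _ = Cop F u hfin hExt (V F).zero_mem (x (delta 1))
    rw [← this]
    rfl
  · intro a b ha hb h1 h2
    have : Cop F u hfin hExt ha + Cop F u hfin hExt hb = Cop F u hfin hExt ((V F).add_mem ha hb) :=
      Cop_unique F u hfin hExt _ fun g => by
        rw [_root_.add_apply, Cop_delta, Cop_delta, map_add]
    rw [map_add, h1, h2]
    change _ = Cop F u hfin hExt ((V F).add_mem ha hb) (x (delta 1))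
    rw [← this]
    rfl
  · intro c a ha h1
    have : c • Cop F u hfin hExt ha = Cop F u hfin hExt ((V F).smul_mem c ha) :=
      Cop_unique F u hfin hExt _ fun g => by
        rw [_root_.smul_apply, Cop_delta, map_smul]
    rw [map_smul, h1]
    change _ = Cop F u hfin hExt ((V F).smul_mem c ha) (x (delta 1))
    rw [← this]
    rfl

theorem norm_iota0 (hExt : ExtStmt) {x : ell2 G →L[ℂ] ell2 G} (hx : x ∈ LGalg G) :
    ‖iota0 F u hfin hExt hx‖ ≤ ‖x‖ := by
  refine ContinuousLinearMap.opNorm_le_bound _ (norm_nonneg _) fun ζ => ?_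
  have hc : IsClosed {ζ : F.H | ‖iota0 F u hfin hExt hx ζ‖ ≤ ‖x‖ * ‖ζ‖} :=
    isClosed_le (by fun_prop) (by fun_prop)
  have hsub : ((V F : Submodule ℂ F.H) : Set F.H) ⊆
      {ζ : F.H | ‖iota0 F u hfin hExt hx ζ‖ ≤ ‖x‖ * ‖ζ‖} := by
    intro ζ hζ
    rw [Set.mem_ofPred_eq, iota0_V F u hfin hExt hx hζ]
    exact norm_Cop_le F u hfin hExt hζ hx
  have h2 := hc.closure_subset_iff.2 hsub
  rw [(V_dense F).closure_eq] at h2
  exact h2 (Set.mem_univ ζ)

/-- the weak formula -/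
theorem inner_iota0 (hExt : ExtStmt) {x : ell2 G →L[ℂ] ell2 G} (hx : x ∈ LGalg G) {ζ' ζ : F.H}
    (h' : ζ' ∈ V F) (h : ζ ∈ V F) :
    ⟪ζ', iota0 F u hfin hExt hx ζ⟫_ℂ =
      ⟪Cop F u hfin hExt h' (delta 1), Cop F u hfin hExt h (x (delta 1))⟫_ℂ := by
  rw [iota0_V F u hfin hExt hx h, Cop_one]

theorem V_ext {R R' : F.H →L[ℂ] F.H}
    (h : ∀ ζ' ∈ V F, ∀ ζ ∈ V F, ⟪ζ', R ζ⟫_ℂ = ⟪ζ', R' ζ⟫_ℂ) : R = R' := by
  refine ContinuousLinearMap.ext_on (V_dense F) ?_
  intro ζ hζ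
  have hd : Dense ((V F : Submodule ℂ F.H) : Set F.H) := V_dense F
  refine hd.eq_of_inner_right (𝕜 := ℂ) ?_
  intro v hv
  exact h v hv ζ (Submodule.subset_span hζ)

omit [Group G] in
theorem star_inner_right {K : Type} [NormedAddCommGroup K] [InnerProductSpace ℂ K]
    [CompleteSpace K] (R : K →L[ℂ] K) (a b : K) : ⟪a, (star R) b⟫_ℂ = ⟪R a, b⟫_ℂ := by
  rw [ContinuousLinearMap.star_eq_adjoint, ContinuousLinearMap.adjoint_inner_right]

omit [Group G] in
theorem star_inner_left {K : Type} [NormedAddCommGroup K] [InnerProductSpace ℂ K]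
    [CompleteSpace K] (R : K →L[ℂ] K) (a b : K) : ⟪(star R) a, b⟫_ℂ = ⟪a, R b⟫_ℂ := by
  rw [ContinuousLinearMap.star_eq_adjoint, ContinuousLinearMap.adjoint_inner_left]

theorem iota0_star (hExt : ExtStmt) {x : ell2 G →L[ℂ] ell2 G} (hx : x ∈ LGalg G)
    (hxs : star x ∈ LGalg G) :
    iota0 F u hfin hExt hxs = star (iota0 F u hfin hExt hx) := by
  refine V_ext F fun ζ' h' ζ h => ?_
  rw [inner_iota0 F u hfin hExt hxs h' h, inner_Cop F u hfin hExt h' h hxs, star_star,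
    Cop_one F u hfin hExt h, ← iota0_V F u hfin hExt hx h', star_inner_right]

theorem iota0_mul (hExt : ExtStmt) {x y : ell2 G →L[ℂ] ell2 G} (hx : x ∈ LGalg G)
    (hy : y ∈ LGalg G) (hxy : x * y ∈ LGalg G) :
    iota0 F u hfin hExt hxy = iota0 F u hfin hExt hx * iota0 F u hfin hExt hy := by
  have hxs : star x ∈ LGalg G := star_mem hx
  refine V_ext F fun ζ' h' ζ h => ?_
  have h1 := iota0_star F u hfin hExt hx hxs
  rw [inner_iota0 F u hfin hExt hxy h' h, mul_apply_eq_comp,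
    inner_Cop F u hfin hExt h' h hx, ← iota0_V F u hfin hExt hxs h',
    ← iota0_V F u hfin hExt hy h, h1, star_inner_left]
  rfl

theorem iota0_add (hExt : ExtStmt) {x y : ell2 G →L[ℂ] ell2 G} (hx : x ∈ LGalg G)
    (hy : y ∈ LGalg G) (hxy : x + y ∈ LGalg G) :
    iota0 F u hfin hExt hxy = iota0 F u hfin hExt hx + iota0 F u hfin hExt hy := by
  refine V_ext F fun ζ' h' ζ h => ?_
  rw [_root_.add_apply, iota0_V F u hfin hExt hxy h, iota0_V F u hfin hExt hx h,
    iota0_V F u hfin hExt hy h, _root_.add_apply, map_add]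

theorem iota0_smul (hExt : ExtStmt) (c : ℂ) {x : ell2 G →L[ℂ] ell2 G} (hx : x ∈ LGalg G)
    (hcx : c • x ∈ LGalg G) :
    iota0 F u hfin hExt hcx = c • iota0 F u hfin hExt hx := by
  refine V_ext F fun ζ' h' ζ h => ?_
  rw [_root_.smul_apply, iota0_V F u hfin hExt hcx h, iota0_V F u hfin hExt hx h,
    _root_.smul_apply, map_smul]

theorem iota0_leftReg (hExt : ExtStmt) (g : G) (hg : leftReg G g ∈ LGalg G) :
    iota0 F u hfin hExt hg = U F u g := by
  refine V_ext F fun ζ' h' ζ h => ?_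
  rw [iota0_V F u hfin hExt hg h, leftReg_delta, mul_one, Cop_delta]

theorem iota0_one (hExt : ExtStmt) (h1 : (1 : ell2 G →L[ℂ] ell2 G) ∈ LGalg G) :
    iota0 F u hfin hExt h1 = 1 := by
  refine V_ext F fun ζ' h' ζ h => ?_
  rw [iota0_V F u hfin hExt h1 h]
  change ⟪ζ', Cop F u hfin hExt h (delta 1)⟫_ℂ = _
  rw [Cop_one]
  rfl

/-! ## membership in the algebra -/

theorem iota0_comm (hExt : ExtStmt) {x : ell2 G →L[ℂ] ell2 G} (hx : x ∈ LGalg G)
    {R : F.H →L[ℂ] F.H} (hRU : ∀ g, R * U F u g = U F u g * R) (hRV : ∀ ζ ∈ V F, R ζ ∈ V F) :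
    R * iota0 F u hfin hExt hx = iota0 F u hfin hExt hx * R := by
  refine ContinuousLinearMap.ext_on (V_dense F) ?_
  intro ζ hζ'
  have hζ : ζ ∈ V F := Submodule.subset_span hζ'
  have h1 : R ∘L Cop F u hfin hExt hζ = Cop F u hfin hExt (hRV ζ hζ) := by
    refine Cop_unique F u hfin hExt _ fun g => ?_
    have h2 := congrArg (fun t : F.H →L[ℂ] F.H => t ζ) (hRU g)
    simp only [mul_apply_eq_comp] at h2
    rw [ContinuousLinearMap.comp_apply, Cop_delta, h2]
  rw [mul_apply_eq_comp, mul_apply_eq_comp, iota0_V F u hfin hExt hx hζ,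
    iota0_V F u hfin hExt hx (hRV ζ hζ), ← h1, ContinuousLinearMap.comp_apply]

theorem map_V {R : F.H →L[ℂ] F.H} (h : ∀ X, R (F.vec X) ∈ V F) : ∀ ζ ∈ V F, R ζ ∈ V F := by
  intro ζ hζ
  refine Submodule.span_induction (p := fun ζ _ => R ζ ∈ V F) ?_ ?_ ?_ ?_ hζ
  · rintro _ ⟨X, rfl⟩
    exact h X
  · rw [map_zero]
    exact (V F).zero_mem
  · intro a b _ _ ha hb
    rw [map_add]
    exact (V F).add_mem ha hb
  · intro c a _ ha
    rw [map_smul]
    exact (V F).smul_mem c ha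

theorem rho_V (a : A) : ∀ ζ ∈ V F, F.rho a ζ ∈ V F := by
  refine map_V F fun X => ?_
  rcases List.eq_nil_or_concat X with rfl | ⟨Y, y, rfl⟩
  · rw [vec_nil, map_zero]
    exact (V F).zero_mem
  · rw [List.concat_eq_append, F.rho_vec]
    exact vec_mem F _

theorem Dr_V : ∀ ζ ∈ V F, F.Dr ζ ∈ V F := by
  refine map_V F fun X => ?_
  rcases List.eq_nil_or_concat X with rfl | ⟨Y, y, rfl⟩
  · rw [vec_nil, map_zero]
    exact (V F).zero_mem
  · rw [List.concat_eq_append]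
    rcases List.eq_nil_or_concat Y with rfl | ⟨Z, z, rfl⟩
    · rw [List.nil_append, F.Dr_one]
      exact vec_mem F _
    · rw [List.concat_eq_append, List.append_assoc]
      change F.Dr (F.vec (Z ++ [z, y])) ∈ V F
      rw [F.Dr_two]
      exact (V F).add_mem (vec_mem F _) (vec_mem F _)

theorem iota0_mem (hExt : ExtStmt) {x : ell2 G →L[ℂ] ell2 G} (hx : x ∈ LGalg G) :
    iota0 F u hfin hExt hx ∈ F.alg := by
  rw [F.mem_alg]
  refine ⟨fun a => ?_, ?_⟩
  · exact iota0_comm F u hfin hExt hx (fun g => (F.lam_rho _ _).symm) (rho_V F a)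
  · exact iota0_comm F u hfin hExt hx (fun g => (F.lam_Dr _).symm) (Dr_V F)

theorem Om_mem : F.Om ∈ V F := vec_mem F [1]

theorem iota0_trace (hExt : ExtStmt) (h1 : T.τ 1 = 1) (htr : ∀ g, g ≠ 1 → T.τ (u g : A) = 0)
    {x : ell2 G →L[ℂ] ell2 G} (hx : x ∈ LGalg G) :
    ⟪F.Om, iota0 F u hfin hExt hx F.Om⟫_ℂ = ⟪(delta 1 : ell2 G), x (delta 1)⟫_ℂ := by
  classical
  rw [inner_iota0 F u hfin hExt hx (Om_mem F) (Om_mem F)]
  have h2 : (Cop F u hfin hExt (Om_mem F)).adjoint ∘L Cop F u hfin hExt (Om_mem F) =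
      (1 : ell2 G →L[ℂ] ell2 G) := by
    refine ext_total (delta_dense G) fun g => ?_
    ext h
    rw [← inner_delta_left, ← inner_delta_left, ContinuousLinearMap.comp_apply,
      ContinuousLinearMap.adjoint_inner_right, Cop_delta, Cop_delta, U_inner]
    change _ = ⟪(delta h : ell2 G), delta g⟫_ℂ
    rw [inner_delta_delta, U, FockSys.Om, F.lam_vec, F.inner_vec, form, star_one, one_mul,
      one_mul, mul_one]
    by_cases hh : h = g
    · rw [if_pos hh, hh, inv_mul_cancel, map_one]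
      exact h1
    · rw [if_neg hh, htr _ (fun h3 => hh (inv_mul_eq_one.1 h3))]
  have h3 := congrArg (fun t : ell2 G →L[ℂ] ell2 G => ⟪(delta 1 : ell2 G), t (x (delta 1))⟫_ℂ) h2
  simp only [ContinuousLinearMap.comp_apply] at h3
  rw [ContinuousLinearMap.adjoint_inner_right] at h3
  rw [h3]
  rfl

/-! ## normality -/

theorem iota0_normal_V (hExt : ExtStmt) {α : Type} (l : Filter α)
    (x : α → ell2 G →L[ℂ] ell2 G) (hx : ∀ i, x i ∈ LGalg G) (y : ell2 G →L[ℂ] ell2 G)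
    (hy : y ∈ LGalg G) (h : WOTTendsto x l y) {ζ' ζ : F.H} (h' : ζ' ∈ V F) (hζ : ζ ∈ V F) :
    Tendsto (fun i => ⟪ζ', iota0 F u hfin hExt (hx i) ζ⟫_ℂ) l
      (𝓝 ⟪ζ', iota0 F u hfin hExt hy ζ⟫_ℂ) := by
  have e : ∀ (z : ell2 G →L[ℂ] ell2 G) (hz : z ∈ LGalg G),
      ⟪ζ', iota0 F u hfin hExt hz ζ⟫_ℂ =
      ⟪(Cop F u hfin hExt hζ).adjoint (Cop F u hfin hExt h' (delta 1)), z (delta 1)⟫_ℂ := by
    intro z hz
    rw [inner_iota0 F u hfin hExt hz h' hζ, ContinuousLinearMap.adjoint_inner_left]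
  simp only [e]
  exact h _ _

theorem iota0_normal (hExt : ExtStmt) {α : Type} (l : Filter α)
    (x : α → ell2 G →L[ℂ] ell2 G) (hx : ∀ i, x i ∈ LGalg G) (y : ell2 G →L[ℂ] ell2 G)
    (hy : y ∈ LGalg G) (K : ℝ) (hK : ∀ i, ‖x i‖ ≤ K) (h : WOTTendsto x l y) :
    WOTTendsto (fun i => iota0 F u hfin hExt (hx i)) l (iota0 F u hfin hExt hy) := by
  intro η ζ
  set M : ℝ := max (max K ‖y‖) 0 + 1 with hM
  have hM0 : 0 < M := by have := le_max_right (max K ‖y‖) 0; linarith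
  have hMx : ∀ i, ‖iota0 F u hfin hExt (hx i)‖ ≤ M := fun i =>
    (norm_iota0 F u hfin hExt (hx i)).trans ((hK i).trans (by
      have h1 := le_max_left K ‖y‖
      have h2 := le_max_left (max K ‖y‖) 0
      linarith))
  have hMy : ‖iota0 F u hfin hExt hy‖ ≤ M :=
    (norm_iota0 F u hfin hExt hy).trans (by
      have h1 := le_max_right K ‖y‖
      have h2 := le_max_left (max K ‖y‖) 0
      linarith)
  rw [Metric.tendsto_nhds]
  intro ε hε
  -- approximate
  set N : ℝ := ‖η‖ + ‖ζ‖ + 1 with hN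
  have hN0 : 0 < N := by positivity
  set δ : ℝ := min 1 (ε / (8 * M * N)) with hδ
  have hδ0 : 0 < δ := by positivity
  have hδ1 : δ ≤ 1 := min_le_left _ _
  have hδ2 : δ * (8 * M * N) ≤ ε := by
    have := min_le_right 1 (ε / (8 * M * N))
    rw [← hδ, le_div_iff₀ (by positivity)] at this
    exact this
  obtain ⟨η', hη', hηd⟩ := Metric.mem_closure_iff.1 (V_dense F η) δ hδ0
  obtain ⟨ζ', hζ', hζd⟩ := Metric.mem_closure_iff.1 (V_dense F ζ) δ hδ0
  have hmain := Metric.tendsto_nhds.1 (iota0_normal_V F u hfin hExt l x hx y hy h hη' hζ')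
    (ε / 2) (by positivity)
  have hbd : ∀ R : F.H →L[ℂ] F.H, ‖R‖ ≤ M → ‖⟪η, R ζ⟫_ℂ - ⟪η', R ζ'⟫_ℂ‖ ≤ ε / 8 + ε / 8 := by
    intro R hR
    have e1 : ⟪η, R ζ⟫_ℂ - ⟪η', R ζ'⟫_ℂ = ⟪η - η', R ζ⟫_ℂ + ⟪η', R (ζ - ζ')⟫_ℂ := by
      rw [inner_sub_left, map_sub, inner_sub_right]
      ring
    have hd1 : ‖η - η'‖ ≤ δ := by rw [← dist_eq_norm]; exact hηd.le
    have hd2 : ‖ζ - ζ'‖ ≤ δ := by rw [← dist_eq_norm]; exact hζd.le
    have hη'n : ‖η'‖ ≤ N := by
      have := norm_sub_norm_le η' η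
      rw [norm_sub_rev] at this
      have := norm_nonneg ζ
      linarith
    have e2 : ‖⟪η - η', R ζ⟫_ℂ‖ ≤ δ * (M * N) := by
      refine (norm_inner_le_norm _ _).trans ?_
      have h3 : ‖R ζ‖ ≤ M * N := (R.le_opNorm ζ).trans (by
        have := norm_nonneg η
        have := norm_nonneg ζ
        gcongr
        linarith)
      gcongr
    have e3 : ‖⟪η', R (ζ - ζ')⟫_ℂ‖ ≤ N * (M * δ) := by
      refine (norm_inner_le_norm _ _).trans ?_
      have h3 : ‖R (ζ - ζ')‖ ≤ M * δ := (R.le_opNorm _).trans (by gcongr)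
      gcongr
    rw [e1]
    refine (norm_add_le _ _).trans (add_le_add (e2.trans ?_) (e3.trans ?_))
    · nlinarith
    · nlinarith
  filter_upwards [hmain] with i hi
  have b1 := hbd _ (hMx i)
  have b2 := hbd _ hMy
  rw [dist_eq_norm] at hi ⊢
  have e4 : ⟪η, iota0 F u hfin hExt (hx i) ζ⟫_ℂ - ⟪η, iota0 F u hfin hExt hy ζ⟫_ℂ =
      (⟪η, iota0 F u hfin hExt (hx i) ζ⟫_ℂ - ⟪η', iota0 F u hfin hExt (hx i) ζ'⟫_ℂ) +
      (⟪η', iota0 F u hfin hExt (hx i) ζ'⟫_ℂ - ⟪η', iota0 F u hfin hExt hy ζ'⟫_ℂ) -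
      (⟪η, iota0 F u hfin hExt hy ζ⟫_ℂ - ⟪η', iota0 F u hfin hExt hy ζ'⟫_ℂ) := by ring
  rw [e4]
  have e5 := norm_sub_le ((⟪η, iota0 F u hfin hExt (hx i) ζ⟫_ℂ -
      ⟪η', iota0 F u hfin hExt (hx i) ζ'⟫_ℂ) +
      (⟪η', iota0 F u hfin hExt (hx i) ζ'⟫_ℂ - ⟪η', iota0 F u hfin hExt hy ζ'⟫_ℂ))
      (⟪η, iota0 F u hfin hExt hy ζ⟫_ℂ - ⟪η', iota0 F u hfin hExt hy ζ'⟫_ℂ)
  have e6 := norm_add_le (⟪η, iota0 F u hfin hExt (hx i) ζ⟫_ℂ -
      ⟪η', iota0 F u hfin hExt (hx i) ζ'⟫_ℂ)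
      (⟪η', iota0 F u hfin hExt (hx i) ζ'⟫_ℂ - ⟪η', iota0 F u hfin hExt hy ζ'⟫_ℂ)
  linarith

end F10

open F10 in
theorem iota (hExt : ExtStmt) : IotaStmt := by
  intro A _ _ _ _ T C F h1 ht hs G _ u hfin htr
  let φ : (LG G).Elt →⋆ₐ[ℂ] (F.vna h1 ht hs).Elt :=
    { toFun := fun x => ⟨iota0 F u hfin hExt x.2, iota0_mem F u hfin hExt x.2⟩
      map_one' := Subtype.ext (iota0_one F u hfin hExt (one_mem (LGalg G)))
      map_mul' := fun x y => Subtype.ext (iota0_mul F u hfin hExt x.2 y.2 (x * y).2)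
      map_zero' := by
        refine Subtype.ext ?_
        have h3 : ∀ (z : ell2 G →L[ℂ] ell2 G) (hz : z ∈ LGalg G), z = 0 →
            iota0 F u hfin hExt hz = 0 := by
          intro z hz hz0
          subst hz0
          have h4 := iota0_add F u hfin hExt hz hz (by rw [add_zero]; exact hz)
          have h5 : ∀ (w : ell2 G →L[ℂ] ell2 G) (hw : w ∈ LGalg G), w = 0 →
              iota0 F u hfin hExt hw = iota0 F u hfin hExt hz := by
            intro w hw hw0
            subst hw0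
            rfl
          rw [h5 _ _ (add_zero 0)] at h4
          exact left_eq_add.1 h4
        exact h3 _ (0 : (LG G).Elt).2 rfl
      map_add' := fun x y => Subtype.ext (iota0_add F u hfin hExt x.2 y.2 (x + y).2)
      commutes' := fun c => by
        have h3 : ∀ (z : ell2 G →L[ℂ] ell2 G) (hz : z ∈ LGalg G),
            z = c • (1 : ell2 G →L[ℂ] ell2 G) →
            iota0 F u hfin hExt hz = c • (1 : F.H →L[ℂ] F.H) := by
          intro z hz hz0
          subst hz0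
          rw [iota0_smul F u hfin hExt c (one_mem (LGalg G)), iota0_one]
        have h4 : (algebraMap ℂ (LG G).Elt c).1 = c • (1 : ell2 G →L[ℂ] ell2 G) := by
          rw [Algebra.algebraMap_eq_smul_one]
          rfl
        have h5 : (algebraMap ℂ (F.vna h1 ht hs).Elt c).1 = c • (1 : F.H →L[ℂ] F.H) := by
          rw [Algebra.algebraMap_eq_smul_one]
          rfl
        exact Subtype.ext ((h3 _ (algebraMap ℂ (LG G).Elt c).2 h4).trans h5.symm)
      map_star' := fun x => Subtype.ext (iota0_star F u hfin hExt x.2 (star x).2) }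
  have htrφ : ∀ x, (F.vna h1 ht hs).tr (φ x) = (LG G).tr x := fun x =>
    iota0_trace F u hfin hExt h1 htr x.2
  refine ⟨⟨φ, ?_, htrφ, ?_⟩, ?_⟩
  · rw [injective_iff_map_eq_zero]
    intro x hx
    refine (LG G).tr_faithful x ?_
    rw [← htrφ, map_mul, hx, mul_zero, map_zero]
  · intro α l x y K hK h
    exact iota0_normal F u hfin hExt l (fun i => (x i).1) (fun i => (x i).2)
      y.1 y.2 K (fun i => hK i) h
  · intro g
    exact iota0_leftReg F u hfin hExt g (leftReg_mem G g)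

end

end MP8a6869
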