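import Pool.Agent.Work.MP_8a6869_an.Stmts

/-!
# MP_8a6869_an, item F7 : central vectors of the Fock space
-/

namespace MP8a6869

open scoped InnerProductSpace ComplexOrder
open MonoidAlgebra Filter Topology

namespace ItemF7

variable {A : Type} [Ring A] [StarRing A] [Algebra ℂ A] {T : TrAlg A} {C : Cov T}

theorem ext_vec (F : FockSys C) {a b : F.H} (h : ∀ Z, ⟪F.vec Z, a⟫_ℂ = ⟪F.vec Z, b⟫_ℂ) : a = b := by
  have h0 : ∀ z ∈ (Submodule.span ℂ (Set.range F.vec)).topologicalClosure, ⟪z, a - b⟫_ℂ = 0 := by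
    intro z hz
    have hcl : IsClosed {z : F.H | ⟪z, a - b⟫_ℂ = 0} :=
      isClosed_eq (continuous_id.inner continuous_const) continuous_const
    refine hcl.closure_subset_iff.2 ?_ hz
    intro z hz
    show ⟪z, a - b⟫_ℂ = 0
    induction hz using Submodule.span_induction with
    | mem z hz =>
      obtain ⟨Z, rfl⟩ := hz
      rw [inner_sub_right, h Z, sub_self]
    | zero => exact inner_zero_left _
    | add x y _ _ hx hy => rw [inner_add_left, hx, hy, add_zero]
    | smul c x _ hx => rw [inner_smul_left, hx, mul_zero]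
  have := h0 (a - b) (by rw [F.dense]; trivial)
  exact sub_eq_zero.1 (inner_self_eq_zero.1 this)

theorem ext_op (F : FockSys C) {x y : F.H →L[ℂ] F.H} (h : ∀ Z, x (F.vec Z) = y (F.vec Z)) :
    x = y := by
  have h0 : ∀ z ∈ (Submodule.span ℂ (Set.range F.vec)).topologicalClosure, x z = y z := by
    intro z hz
    have hcl : IsClosed {z : F.H | x z = y z} := isClosed_eq x.continuous y.continuous
    refine hcl.closure_subset_iff.2 ?_ hz
    intro z hz
    show x z = y z
    induction hz using Submodule.span_induction with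
    | mem z hz =>
      obtain ⟨Z, rfl⟩ := hz
      exact h Z
    | zero => rw [map_zero, map_zero]
    | add a b _ _ ha hb => rw [map_add, map_add, ha, hb]
    | smul c a _ ha => rw [map_smul, map_smul, ha]
  ext z
  exact h0 z (by rw [F.dense]; trivial)

theorem form_nil_left (h : A) (Y : List A) : form C h [] Y = 0 := by
  cases Y <;> rfl

theorem form_zero (X Y : List A) : form C 0 X Y = 0 := by
  induction X generalizing Y with
  | nil => exact form_nil_left _ _
  | cons x X ih =>
    cases X with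
    | nil =>
      cases Y with
      | nil => rfl
      | cons y Y =>
        cases Y with
        | nil => simp [form]
        | cons y' Y => rfl
    | cons x' X =>
      cases Y with
      | nil => rfl
      | cons y Y =>
        cases Y with
        | nil => rfl
        | cons y' Y =>
          rw [form, mul_zero, zero_mul, map_zero]
          exact ih _

theorem vec_nil (F : FockSys C) : F.vec [] = 0 := by
  rw [← inner_self_eq_zero (𝕜 := ℂ), F.inner_vec]
  rfl

theorem lam_mul (F : FockSys C) (a b : A) : F.lam a * F.lam b = F.lam (a * b) := by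
  refine ext_op F fun Z => ?_
  show F.lam a (F.lam b (F.vec Z)) = F.lam (a * b) (F.vec Z)
  cases Z with
  | nil => rw [vec_nil, map_zero, map_zero, map_zero]
  | cons z Z => rw [F.lam_vec, F.lam_vec, F.lam_vec, mul_assoc]

theorem lam_one (F : FockSys C) : F.lam 1 = 1 := by
  refine ext_op F fun Z => ?_
  show F.lam 1 (F.vec Z) = F.vec Z
  cases Z with
  | nil => rw [vec_nil, map_zero]
  | cons z Z => rw [F.lam_vec, one_mul]

theorem rho_mul (F : FockSys C) (a b : A) : F.rho a * F.rho b = F.rho (b * a) := by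
  refine ext_op F fun Z => ?_
  show F.rho a (F.rho b (F.vec Z)) = F.rho (b * a) (F.vec Z)
  rcases List.eq_nil_or_concat Z with rfl | ⟨X, x, rfl⟩
  · rw [vec_nil, map_zero, map_zero, map_zero]
  · rw [List.concat_eq_append, F.rho_vec, F.rho_vec, F.rho_vec, mul_assoc]

theorem rho_one (F : FockSys C) : F.rho 1 = 1 := by
  refine ext_op F fun Z => ?_
  show F.rho 1 (F.vec Z) = F.vec Z
  rcases List.eq_nil_or_concat Z with rfl | ⟨X, x, rfl⟩
  · rw [vec_nil, map_zero]
  · rw [List.concat_eq_append, F.rho_vec, mul_one]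

theorem lam_inner (F : FockSys C) (a : A) (v w : F.H) :
    ⟪F.lam a v, w⟫_ℂ = ⟪v, F.lam (star a) w⟫_ℂ := by
  rw [← F.lam_star, ContinuousLinearMap.star_eq_adjoint, ContinuousLinearMap.adjoint_inner_right]

theorem rho_inner (F : FockSys C) (a : A) (v w : F.H) :
    ⟪F.rho a v, w⟫_ℂ = ⟪v, F.rho (star a) w⟫_ℂ := by
  rw [← F.rho_star, ContinuousLinearMap.star_eq_adjoint, ContinuousLinearMap.adjoint_inner_right]

theorem lam_inner_unitary (F : FockSys C) {a : A} (ha : star a * a = 1) (v w : F.H) :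
    ⟪F.lam a v, F.lam a w⟫_ℂ = ⟪v, w⟫_ℂ := by
  rw [lam_inner]
  have : F.lam (star a) (F.lam a w) = w := by
    have h := lam_mul F (star a) a
    rw [ha, lam_one] at h
    exact DFunLike.congr_fun h w
  rw [this]

theorem rho_inner_unitary (F : FockSys C) {a : A} (ha : a * star a = 1) (v w : F.H) :
    ⟪F.rho a v, F.rho a w⟫_ℂ = ⟪v, w⟫_ℂ := by
  rw [rho_inner]
  have : F.rho (star a) (F.rho a w) = w := by
    have h := rho_mul F (star a) a
    rw [ha, rho_one] at h
    exact DFunLike.congr_fun h w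
  rw [this]

theorem lam_norm (F : FockSys C) {a : A} (ha : star a * a = 1) (v : F.H) :
    ‖F.lam a v‖ = ‖v‖ := by
  have := lam_inner_unitary F ha v v
  rw [inner_self_eq_norm_sq_to_K, inner_self_eq_norm_sq_to_K] at this
  have h2 : ‖F.lam a v‖ ^ 2 = ‖v‖ ^ 2 := by exact_mod_cast this
  exact (sq_eq_sq₀ (norm_nonneg _) (norm_nonneg _)).1 h2

theorem rho_norm (F : FockSys C) {a : A} (ha : a * star a = 1) (v : F.H) :
    ‖F.rho a v‖ = ‖v‖ := by
  have := rho_inner_unitary F ha v v
  rw [inner_self_eq_norm_sq_to_K, inner_self_eq_norm_sq_to_K] at this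
  have h2 : ‖F.rho a v‖ ^ 2 = ‖v‖ ^ 2 := by exact_mod_cast this
  exact (sq_eq_sq₀ (norm_nonneg _) (norm_nonneg _)).1 h2

/-- the head of a list -/
def hd (X : List A) : A := X.headD 0

/-- The key orthogonality. -/
theorem ortho (F : FockSys C) {a : A} (y0 y1 : A) (Y X : List A)
    (h : C.E (star y0 * star a * hd X) = 0) :
    ⟪F.lam a (F.vec (y0 :: y1 :: Y)), F.rho a (F.vec X)⟫_ℂ = 0 := by
  rw [F.lam_vec]
  cases X with
  | nil => rw [vec_nil, map_zero, inner_zero_right]
  | cons x X =>
    rcases List.eq_nil_or_concat X with rfl | ⟨Z, z, rfl⟩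
    · have := F.rho_vec a x []
      simp only [List.nil_append] at this
      rw [this, F.inner_vec]
      rfl
    · rw [List.concat_eq_append, ← List.cons_append, F.rho_vec, F.inner_vec, List.cons_append]
      obtain ⟨z', Z', hZ⟩ : ∃ z' Z', Z ++ [z * a] = z' :: Z' := by
        cases Z with
        | nil => exact ⟨_, _, rfl⟩
        | cons z' Z' => exact ⟨_, _, rfl⟩
      rw [hZ, form, mul_one]
      have : C.E (star (a * y0) * x) = 0 := by
        rw [star_mul]
        exact h
      rw [this]
      exact form_zero _ _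

theorem vec_one_add (F : FockSys C) (x y : A) : F.vec [x + y] = F.vec [x] + F.vec [y] := by
  refine ext_vec F fun Z => ?_
  rw [inner_add_right, F.inner_vec, F.inner_vec, F.inner_vec]
  cases Z with
  | nil => simp [form]
  | cons z Z =>
    cases Z with
    | nil => simp [form, mul_add]
    | cons z' Z => simp [form]

theorem vec_one_smul (F : FockSys C) (c : ℂ) (x : A) : F.vec [c • x] = c • F.vec [x] := by
  refine ext_vec F fun Z => ?_
  rw [inner_smul_right, F.inner_vec, F.inner_vec]
  cases Z with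
  | nil => simp [form]
  | cons z Z =>
    cases Z with
    | nil => simp [form]
    | cons z' Z => simp [form]

theorem norm_vec_one (F : FockSys C) (x : A) : ‖F.vec [x]‖ ^ 2 = (T.τ (star x * x)).re := by
  have h := inner_self_eq_norm_sq_to_K (𝕜 := ℂ) (F.vec [x])
  rw [F.inner_vec, form, mul_one] at h
  rw [h]
  have h2 : ((((‖F.vec [x]‖ : ℝ) : ℂ)) ^ 2).re = ‖F.vec [x]‖ ^ 2 := by
    rw [← Complex.ofReal_pow, Complex.ofReal_re]
  exact h2.symm

end ItemF7

open ItemF7 in
/-- [F7] -/
theorem cent : CentStmt := by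
  intro A _ _ _ _ T C F h1 G _ u hE hf v hv
  -- vectors of length at least two
  have hlong : ∀ y0 y1 Y, ⟪F.vec (y0 :: y1 :: Y), v⟫_ℂ = 0 := by
    intro y0 y1 Y
    have key : ∀ ε : ℝ, 0 < ε → ‖⟪F.vec (y0 :: y1 :: Y), v⟫_ℂ‖ ≤ ‖F.vec (y0 :: y1 :: Y)‖ * ε := by
      intro ε hε
      have hvcl : v ∈ closure ((Submodule.span ℂ (Set.range F.vec) : Submodule ℂ F.H) : Set F.H) := by
        have : v ∈ (Submodule.span ℂ (Set.range F.vec)).topologicalClosure := by
          rw [F.dense]
          trivial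
        exact this
      obtain ⟨w, hw, hvw⟩ := Metric.mem_closure_iff.1 hvcl ε hε
      obtain ⟨c, hc⟩ := (Finsupp.mem_span_range_iff_exists_finsupp).1 hw
      obtain ⟨g, hg⟩ := hE c.support (fun j => hd (j : List A)) (fun _ => y0)
      have hgu : star ((u g⁻¹ : unitary A) : A) = (u g : A) := by
        rw [map_inv]
        exact star_star _
      have ha1 : star ((u g⁻¹ : unitary A) : A) * (u g⁻¹ : A) = 1 := Unitary.coe_star_mul_self _
      have ha2 : ((u g⁻¹ : unitary A) : A) * star (u g⁻¹ : A) = 1 := Unitary.coe_mul_star_self _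
      have hw0 : ⟪F.lam (u g⁻¹ : A) (F.vec (y0 :: y1 :: Y)), F.rho (u g⁻¹ : A) w⟫_ℂ = 0 := by
        rw [← hc, Finsupp.sum, map_sum, inner_sum]
        refine Finset.sum_eq_zero fun X hX => ?_
        rw [map_smul, inner_smul_right, ortho F y0 y1 Y X (by
          rw [hgu]
          exact hg ⟨X, hX⟩), mul_zero]
      have e : ⟪F.vec (y0 :: y1 :: Y), v⟫_ℂ =
          ⟪F.lam (u g⁻¹ : A) (F.vec (y0 :: y1 :: Y)), F.rho (u g⁻¹ : A) (v - w)⟫_ℂ := by
        rw [map_sub, inner_sub_right, hw0, sub_zero, ← hv, lam_inner_unitary F ha1]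
      rw [e]
      refine (norm_inner_le_norm _ _).trans ?_
      rw [lam_norm F ha1, rho_norm F ha2]
      refine mul_le_mul_of_nonneg_left ?_ (norm_nonneg _)
      rw [← dist_eq_norm]
      exact hvw.le
    have h0 : ‖⟪F.vec (y0 :: y1 :: Y), v⟫_ℂ‖ ≤ 0 := by
      refine le_of_forall_pos_le_add fun δ hδ => ?_
      have hN : 0 < ‖F.vec (y0 :: y1 :: Y)‖ + 1 := by positivity
      have := key (δ / (‖F.vec (y0 :: y1 :: Y)‖ + 1)) (by positivity)
      rw [zero_add]
      refine this.trans ?_
      rw [← mul_div_assoc, div_le_iff₀ hN]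
      nlinarith [norm_nonneg (F.vec (y0 :: y1 :: Y))]
    exact norm_le_zero_iff.1 h0
  -- the functional
  let f : A →ₗ[ℂ] ℂ :=
    { toFun := fun x => ⟪v, F.vec [x]⟫_ℂ
      map_add' := fun x y => by rw [vec_one_add, inner_add_right]
      map_smul' := fun c x => by rw [vec_one_smul, inner_smul_right]; rfl }
  have hfx : ∀ x, f x = ⟪v, F.vec [x]⟫_ℂ := fun _ => rfl
  have hbd : ∃ κ : ℝ, ∀ x, ‖f x‖ ^ 2 ≤ κ * (T.τ (star x * x)).re := by
    refine ⟨‖v‖ ^ 2, fun x => ?_⟩
    rw [← norm_vec_one F, ← mul_pow, hfx]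
    exact pow_le_pow_left₀ (norm_nonneg _) (norm_inner_le_norm _ _) 2
  have htr : ∀ a x, f (a * x) = f (x * a) := by
    intro a x
    rw [hfx, hfx, ← F.lam_vec a x []]
    have e2 : F.vec [x * a] = F.rho a (F.vec [x]) := by
      have := F.rho_vec a x []
      simp only [List.nil_append] at this
      exact this.symm
    rw [e2]
    have l1 := lam_inner F (star a) v (F.vec [x])
    have l2 := rho_inner F (star a) v (F.vec [x])
    rw [star_star] at l1 l2
    rw [← l1, ← l2, hv]
  have hval := hf f hbd htr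
  refine ⟨(starRingEnd ℂ) (f 1), ext_vec F fun Z => ?_⟩
  rw [inner_smul_right, FockSys.Om]
  cases Z with
  | nil => rw [vec_nil, inner_zero_left, inner_zero_left, mul_zero]
  | cons z Z =>
    cases Z with
    | nil =>
      rw [← inner_conj_symm, ← hfx, hval z, map_mul, F.inner_vec, form, mul_one, mul_one, T.τ_star]
    | cons z' Z =>
      rw [hlong, F.inner_vec]
      simp [form]

end MP8a6869
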