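import Pool.Agent.Work.MP_8a6869_an.Stmts

/-!
# MP_8a6869_an, item T2: the conditional expectation pair of `theta`
-/

namespace MP8a6869

open scoped ComplexOrder
open MonoidAlgebra

noncomputable section

namespace T2

variable {G : Type} [Group G] {I : ℕ} (φ : FreeGroup (Fin I) →* G)

/-- `theta` as a homomorphism to the algebra. -/
def th : FreeGroup (Fin I) →* AG G := (unitary (AG G)).subtype.comp (theta φ)

theorem th_apply (f : FreeGroup (Fin I)) : th φ f = (theta φ f : AG G) := rfl

theorem star_th (f : FreeGroup (Fin I)) : star (th φ f) = th φ f⁻¹ := by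
  rw [th_apply, th_apply, map_inv]
  rfl

theorem norm_finite (n : ℕ) : {f : FreeGroup (Fin I) | f.norm ≤ n}.Finite := by
  have h := List.finite_length_le (Fin I × Bool) n
  exact h.preimage (FreeGroup.toWord_injective.injOn)

theorem fin (h : ThetaSuppStmt) (hφ : Function.Injective φ) (x : AG G) :
    (Function.support fun f : FreeGroup (Fin I) => (trA G).τ (x * star (th φ f))).Finite := by
  classical
  have hsub : (Function.support fun f : FreeGroup (Fin I) => (trA G).τ (x * star (th φ f))) ⊆
      ⋃ g ∈ (x.coeff.support : Set G),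
        {f | ∃ f' : FreeGroup (Fin I), φ f' = g ∧ f.norm ≤ f'.norm} := by
    intro f hf
    rw [Function.mem_support] at hf
    have h1 : (x * star (th φ f)).coeff 1 ≠ 0 := by
      intro h0
      apply hf
      change trM3.τ ((x * star (th φ f)).coeff 1) = 0
      rw [h0, map_zero]
    rw [coeff_mul_apply_left, Finsupp.sum] at h1
    obtain ⟨g, hg, hg2⟩ := Finset.exists_ne_zero_of_sum_ne_zero h1
    have h3 : (theta φ f : AG G).coeff g ≠ 0 := by
      intro h0
      apply hg2
      rw [mul_one, star_coeff, inv_inv, th_apply, h0, star_zero, mul_zero]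
    rw [Set.mem_iUnion₂]
    exact ⟨g, hg, h G I φ f g h3⟩
  refine Set.Finite.subset ?_ hsub
  refine (Finset.finite_toSet _).biUnion fun g _ => ?_
  by_cases hg : ∃ f' : FreeGroup (Fin I), φ f' = g
  · obtain ⟨f', hf'⟩ := hg
    refine (norm_finite f'.norm).subset ?_
    rintro f ⟨f'', h1, h2⟩
    have : f'' = f' := hφ (h1.trans hf'.symm)
    rw [this] at h2
    exact h2
  · refine Set.Finite.subset Set.finite_empty ?_
    rintro f ⟨f'', h1, h2⟩
    exact hg ⟨f'', h1⟩

/-- The map `P`. -/
def P (h : ThetaSuppStmt) (hφ : Function.Injective φ) :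
    AG G →ₗ[ℂ] MonoidAlgebra ℂ (FreeGroup (Fin I)) where
  toFun x := .ofCoeff (Finsupp.ofSupportFinite (fun f => (trA G).τ (x * star (th φ f)))
    (fin φ h hφ x))
  map_add' x y := by
    ext f
    change (trA G).τ ((x + y) * star (th φ f)) =
      (trA G).τ (x * star (th φ f)) + (trA G).τ (y * star (th φ f))
    rw [add_mul, map_add]
  map_smul' c x := by
    ext f
    change (trA G).τ ((c • x) * star (th φ f)) = c * (trA G).τ (x * star (th φ f))
    rw [smul_mul_assoc, map_smul, smul_eq_mul]

theorem P_coeff (h : ThetaSuppStmt) (hφ : Function.Injective φ) (x : AG G)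
    (f : FreeGroup (Fin I)) : (P φ h hφ x).coeff f = (trA G).τ (x * star (th φ f)) := rfl

/-- The map `Θ`. -/
def Th : MonoidAlgebra ℂ (FreeGroup (Fin I)) →⋆ₐ[ℂ] AG G where
  toAlgHom := lift ℂ (AG G) (FreeGroup (Fin I)) (th φ)
  map_star' b := by
    change lift ℂ (AG G) (FreeGroup (Fin I)) (th φ) (star b) =
      star (lift ℂ (AG G) (FreeGroup (Fin I)) (th φ) b)
    induction b using MonoidAlgebra.induction_linear with
    | zero => simp
    | add x y hx hy => rw [star_add, map_add, map_add, star_add, hx, hy]
    | single f c =>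
      rw [star_single_ma, lift_single, lift_single, star_smul, star_th]

theorem Th_single (f : FreeGroup (Fin I)) (c : ℂ) : Th φ (single f c) = c • th φ f :=
  lift_single _ _ _

theorem tr_th (h : ThetaSuppStmt) (hφ : Function.Injective φ) (f : FreeGroup (Fin I)) :
    (trA G).τ (th φ f) = if f = 1 then 1 else 0 := by
  classical
  split_ifs with hf
  · rw [hf, map_one]
    change (((1 / 3 : ℝ) : ℂ)) * ∑ i : Fin 3, ((1 : AG G).coeff 1) i i = 1
    rw [one_def, coeff_single, Finsupp.single_eq_same]
    simp
  · change trM3.τ ((th φ f).coeff 1) = 0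
    have : (th φ f).coeff 1 = 0 := by
      by_contra h0
      obtain ⟨f', h1, h2⟩ := h G I φ f 1 h0
      have h3 : f' = 1 := hφ (by rw [h1, map_one])
      rw [h3, FreeGroup.norm_one, Nat.le_zero, FreeGroup.norm_eq_zero] at h2
      exact hf h2
    rw [this, map_zero]

end T2

theorem pair (h : ThetaSuppStmt) : PairStmt := by
  intro G _ I φ hφ
  classical
  refine ⟨⟨T2.Th φ, T2.P φ h hφ, ?_, ?_⟩, ?_, ?_⟩
  · intro b
    induction b using MonoidAlgebra.induction_linear with
    | zero => simp
    | add x y hx hy => rw [map_add, map_add, map_add, hx, hy]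
    | single f c =>
      rw [T2.Th_single, map_smul, T2.tr_th φ h hφ]
      change _ = (single f c : MonoidAlgebra ℂ (FreeGroup (Fin I))).coeff 1
      rw [coeff_single, Finsupp.single_apply, smul_eq_mul]
      split_ifs <;> simp
  · intro x b
    induction b using MonoidAlgebra.induction_linear with
    | zero => simp
    | add y z hy hz => rw [mul_add, map_add, hy, hz, map_add, mul_add, map_add]
    | single f c =>
      change (T2.P φ h hφ x * single f c).coeff 1 = _
      rw [coeff_mul_single_apply, T2.Th_single, T2.P_coeff, one_mul, T2.star_th, inv_inv,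
        mul_smul_comm, map_smul, smul_eq_mul, mul_comm]
  · intro f
    change T2.Th φ (single f 1) = _
    rw [T2.Th_single, one_smul]
    rfl
  · intro x f
    rfl

end

end MP8a6869
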