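import Pool.Agent.Work.MP_8a6869_an.Pub
import Pool.Agent.Work.MP_8a6869_an.Bd.B02

/-!
# MP_8a6869_an: transfer of the main theorem to the final definitions
-/

namespace MP8a6869Pub

open scoped InnerProductSpace ComplexOrder ENNReal
open Filter Topology

noncomputable section

/-- a tracial von Neumann algebra in the working definition as one in the final definition -/
def toPub (N : MP8a6869.TracialVNA) : TracialVNA where
  H := N.H
  alg := N.alg
  tr := N.tr
  tr_add x y := map_add N.tr x y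
  tr_smul c x := map_smul N.tr c x
  tr_one := N.tr_one
  tr_nonneg := N.tr_nonneg
  tr_comm := N.tr_comm
  tr_faithful := N.tr_faithful
  tr_normal l x y h := by
    obtain ⟨⟨C, hC⟩, h2⟩ := h
    exact N.tr_normal l x y C hC h2

theorem toPub_LG (G : Type) [Group G] : toPub (MP8a6869.LG G) = LG G := rfl

theorem norm_hom_le {N M : MP8a6869.TracialVNA} (f : N.Elt →⋆ₐ[ℂ] M.Elt) (x : N.Elt) :
    ‖f x‖ ≤ ‖x‖ := by
  have hN : IsClosed (N.alg.toStarSubalgebra : Set (N.H →L[ℂ] N.H)) := by
    have h := N.alg.centralizer_centralizer'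
    change Set.centralizer (Set.centralizer (N.alg.toStarSubalgebra : Set (N.H →L[ℂ] N.H))) =
      (N.alg.toStarSubalgebra : Set (N.H →L[ℂ] N.H)) at h
    rw [← h]
    exact Set.isClosed_centralizer _
  have hM : IsClosed (M.alg.toStarSubalgebra : Set (M.H →L[ℂ] M.H)) := by
    have h := M.alg.centralizer_centralizer'
    change Set.centralizer (Set.centralizer (M.alg.toStarSubalgebra : Set (M.H →L[ℂ] M.H))) =
      (M.alg.toStarSubalgebra : Set (M.H →L[ℂ] M.H)) at h
    rw [← h]
    exact Set.isClosed_centralizer _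
  let _ : CStarAlgebra N.alg.toStarSubalgebra :=
    StarSubalgebra.cstarAlgebra N.alg.toStarSubalgebra (h_closed := hN)
  let _ : CStarAlgebra M.alg.toStarSubalgebra :=
    StarSubalgebra.cstarAlgebra M.alg.toStarSubalgebra (h_closed := hM)
  exact NonUnitalStarAlgHom.norm_apply_le f x

/-- the embedding -/
def toPubEmb {N M : MP8a6869.TracialVNA} (ι : MP8a6869.Embedding N M) :
    Embedding (toPub N) (toPub M) where
  hom := ι.hom
  injective := ι.injective
  tr_hom := ι.tr_hom
  normal l x y h := by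
    obtain ⟨⟨C, hC⟩, h2⟩ := h
    exact ⟨⟨C, fun i => (norm_hom_le ι.hom (x i)).trans (hC i)⟩, ι.normal l x y C hC h2⟩

theorem isExistential_of {U : Ultrafilter ℕ} {N M : MP8a6869.TracialVNA}
    {ι : MP8a6869.Embedding N M} (h : IsExistential U (toPubEmb ι)) :
    MP8a6869.IsExistential U ι := by
  obtain ⟨θ, h1, h2, h3, h4, h5, h6, h7, h8⟩ := h
  exact ⟨θ, h1, h2, h3, h4, h5, h6, h7, h8⟩

theorem isII1Factor_of {M : MP8a6869.TracialVNA} (h : M.IsII1Factor) :
    (toPub M).IsII1Factor := by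
  refine ⟨fun x hx => ?_, h.infinite_dim⟩
  obtain ⟨c, hc⟩ := h.center_trivial x.1 x.2
    (VonNeumannAlgebra.mem_commutant_iff.2 fun y hy => congrArg Subtype.val (hx ⟨y, hy⟩))
  exact ⟨c, Subtype.ext hc⟩

theorem main (G : Type) [Group G] [Countable G]
    (hicc : ∀ g : G, g ≠ 1 → (Set.range fun h : G => h * g * h⁻¹).Infinite)
    (hfree : ∃ f : FreeGroup (Fin 2) →* G, Function.Injective f) :
    (LG G).IsII1Factor ∧ (LG G).IsSeparable ∧
      ∃ M : TracialVNA, M.IsII1Factor ∧ M.IsSeparable ∧ ∃ ι : Embedding (LG G) M,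
        ∀ U : Ultrafilter ℕ, ¬ IsExistential U ι := by
  obtain ⟨M, hM, hsep, ι, hι⟩ := MP8a6869.main G hicc hfree
  have h0 : Infinite (FreeGroup (Fin 2)) := by
    refine Infinite.of_injective (fun n : ℤ => (FreeGroup.of (0 : Fin 2)) ^ n) ?_
    intro a b hab
    have h := congrArg (FreeGroup.lift (fun _ : Fin 2 => Multiplicative.ofAdd (1 : ℤ))) hab
    simpa [← ofAdd_zsmul] using h
  obtain ⟨f, hf⟩ := hfree
  have h1 : Infinite G := Infinite.of_injective f hf
  exact ⟨isII1Factor_of (MP8a6869.LG_factor G hicc), MP8a6869.Sep.separable_ell2 G, toPub M,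
    isII1Factor_of hM, hsep, toPubEmb ι, fun U hU => hι U (isExistential_of hU)⟩

end

end MP8a6869Pub
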