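import Mathlib

/-!
# MP_8a6869_an: algebraic preliminaries

* the star structure of `MonoidAlgebra R G` (`G` a group, `R` a star ring);
* `TrAlg A`: positive traces on a complex star algebra, with the basic constructions;
* `Dominated a`: `κ 1 - a^* a` is a sum of elements `v^* v`;
* `CondPair`, `Cov`: conditional expectation data, covariances;
* `form`: the kernel of the Fock space.
-/

namespace MP8a6869

open scoped ComplexOrder
open MonoidAlgebra

noncomputable section

/-! ## Star on group rings -/

section StarMA

variable {R G : Type} [Ring R] [StarRing R] [Group G]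

instance instStarMA : Star (MonoidAlgebra R G) where
  star x := .ofCoeff (Finsupp.equivMapDomain (Equiv.inv G)
    (x.coeff.mapRange star (star_zero R)))

theorem star_coeff (x : MonoidAlgebra R G) (g : G) : (star x).coeff g = star (x.coeff g⁻¹) := rfl

theorem star_single_ma (g : G) (r : R) :
    star (single g r : MonoidAlgebra R G) = single g⁻¹ (star r) := by
  classical
  ext h
  rw [star_coeff, coeff_single, coeff_single, Finsupp.single_apply, Finsupp.single_apply]
  by_cases h1 : g = h⁻¹
  · rw [if_pos h1, if_pos (by rw [h1, inv_inv])]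
  · rw [if_neg h1, if_neg (by intro h2; apply h1; rw [← h2, inv_inv]), star_zero]

theorem star_add_ma (x y : MonoidAlgebra R G) : star (x + y) = star x + star y := by
  ext g
  rw [star_coeff, coeff_add, coeff_add, Finsupp.add_apply, Finsupp.add_apply, star_add,
    star_coeff, star_coeff]

instance instStarRingMA : StarRing (MonoidAlgebra R G) where
  star_involutive x := by
    ext g
    rw [star_coeff, star_coeff, star_star, inv_inv]
  star_mul x y := by
    induction x using MonoidAlgebra.induction_linear with
    | zero =>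
      have h0 : star (0 : MonoidAlgebra R G) = 0 := by
        ext g; rw [star_coeff]; simp
      rw [zero_mul, h0, mul_zero]
    | add x x' hx hx' => rw [add_mul, star_add_ma, hx, hx', star_add_ma, mul_add]
    | single g r =>
      induction y using MonoidAlgebra.induction_linear with
      | zero =>
        have h0 : star (0 : MonoidAlgebra R G) = 0 := by
          ext g; rw [star_coeff]; simp
        rw [mul_zero, h0, zero_mul]
      | add y y' hy hy' => rw [mul_add, star_add_ma, hy, hy', star_add_ma, add_mul]
      | single h s =>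
        rw [single_mul_single, star_single_ma, star_single_ma, star_single_ma,
          single_mul_single, star_mul, mul_inv_rev]
  star_add := star_add_ma

instance instStarModuleMA [Algebra ℂ R] [StarModule ℂ R] :
    StarModule ℂ (MonoidAlgebra R G) where
  star_smul c x := by
    ext g
    rw [star_coeff, coeff_smul_apply, star_smul, coeff_smul_apply, star_coeff]

end StarMA

/-! ## Positive traces -/

/-- A positive trace on a complex star algebra. -/
structure TrAlg (A : Type) [Ring A] [StarRing A] [Algebra ℂ A] where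
  /-- the trace -/
  τ : A →ₗ[ℂ] ℂ
  comm : ∀ x y, τ (x * y) = τ (y * x)
  τ_star : ∀ x, τ (star x) = (starRingEnd ℂ) (τ x)
  pos : ∀ x, 0 ≤ τ (star x * x)

/-- The identity trace of `ℂ`. -/
def TrAlg.c : TrAlg ℂ where
  τ := LinearMap.id
  comm x y := by simp [mul_comm]
  τ_star x := rfl
  pos x := star_mul_self_nonneg x

/-- Multiples of a trace. -/
def TrAlg.scale {A : Type} [Ring A] [StarRing A] [Algebra ℂ A] (T : TrAlg A) (r : ℝ)
    (hr : 0 ≤ r) : TrAlg A where
  τ := (r : ℂ) • T.τ
  comm x y := by simp [T.comm x y]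
  τ_star x := by simp [T.τ_star]
  pos x := by
    have h : (0 : ℂ) ≤ (r : ℂ) := by exact_mod_cast hr
    exact mul_nonneg h (T.pos x)

/-- The trace `Σ T(X_ii)` of matrices. -/
def TrAlg.mat {B : Type} [Ring B] [StarRing B] [Algebra ℂ B] (T : TrAlg B) (n : Type)
    [Fintype n] [DecidableEq n] : TrAlg (Matrix n n B) where
  τ :=
    { toFun := fun X => ∑ i, T.τ (X i i)
      map_add' := fun X Y => by simp [Finset.sum_add_distrib]
      map_smul' := fun c X => by simp [Finset.mul_sum] }
  comm X Y := by
    change ∑ i, T.τ ((X * Y) i i) = ∑ i, T.τ ((Y * X) i i)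
    simp only [Matrix.mul_apply, map_sum]
    rw [Finset.sum_comm]
    exact Finset.sum_congr rfl fun i _ => Finset.sum_congr rfl fun j _ => T.comm _ _
  τ_star X := by
    change ∑ i, T.τ ((star X) i i) = (starRingEnd ℂ) (∑ i, T.τ (X i i))
    rw [map_sum]
    exact Finset.sum_congr rfl fun i _ => T.τ_star _
  pos X := by
    change 0 ≤ ∑ i, T.τ ((star X * X) i i)
    simp only [Matrix.mul_apply, map_sum]
    exact Finset.sum_nonneg fun i _ => Finset.sum_nonneg fun j _ => T.pos _

theorem TrAlg.mat_apply {B : Type} [Ring B] [StarRing B] [Algebra ℂ B] (T : TrAlg B) (n : Type)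
    [Fintype n] [DecidableEq n] (X : Matrix n n B) : (T.mat n).τ X = ∑ i, T.τ (X i i) := rfl

/-- The trace `x ↦ T(x(1))` of a group ring. -/
def TrAlg.ma {R : Type} [Ring R] [StarRing R] [Algebra ℂ R] (T : TrAlg R) (G : Type) [Group G] :
    TrAlg (MonoidAlgebra R G) where
  τ :=
    { toFun := fun x => T.τ (x.coeff 1)
      map_add' := fun x y => by simp
      map_smul' := fun c x => by simp }
  comm x y := by
    change T.τ ((x * y).coeff 1) = T.τ ((y * x).coeff 1)
    classical
    induction x using MonoidAlgebra.induction_linear with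
    | zero => simp
    | add x x' hx hx' => simp only [add_mul, mul_add, coeff_add, Finsupp.add_apply, map_add,
        hx, hx']
    | single g r =>
      induction y using MonoidAlgebra.induction_linear with
      | zero => simp
      | add y y' hy hy' => simp only [add_mul, mul_add, coeff_add, Finsupp.add_apply, map_add,
          hy, hy']
      | single h s =>
        rw [single_mul_single, single_mul_single, coeff_single, coeff_single,
          Finsupp.single_apply, Finsupp.single_apply]
        by_cases h1 : g * h = 1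
        · rw [if_pos h1, if_pos (mul_eq_one_comm.1 h1), T.comm]
        · rw [if_neg h1, if_neg (fun h2 => h1 (mul_eq_one_comm.1 h2))]
  τ_star x := by
    change T.τ ((star x).coeff 1) = (starRingEnd ℂ) (T.τ (x.coeff 1))
    rw [star_coeff, inv_one, T.τ_star]
  pos x := by
    change 0 ≤ T.τ ((star x * x).coeff 1)
    rw [coeff_mul_apply_right, Finsupp.sum, map_sum]
    refine Finset.sum_nonneg fun g _ => ?_
    rw [star_coeff, one_mul, inv_inv]
    exact T.pos _

theorem TrAlg.ma_apply {R : Type} [Ring R] [StarRing R] [Algebra ℂ R] (T : TrAlg R) (G : Type)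
    [Group G] (x : MonoidAlgebra R G) : (T.ma G).τ x = T.τ (x.coeff 1) := rfl

/-! ## The two algebras of the proof -/

/-- `M_3(ℂ)`. -/
abbrev M3 : Type := Matrix (Fin 3) (Fin 3) ℂ

/-- The normalised trace of `M_3(ℂ)`. -/
def trM3 : TrAlg M3 := (TrAlg.c.mat (Fin 3)).scale (1 / 3) (by norm_num)

/-- `M_3(ℂ[G])`, realised as `M_3(ℂ)[G]`. -/
abbrev AG (G : Type) [Group G] : Type := MonoidAlgebra M3 G

/-- The normalised trace of `M_3(ℂ[G])`. -/
def trA (G : Type) [Group G] : TrAlg (AG G) := trM3.ma G

/-- `ℂ[F]` with its canonical trace. -/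
def trB (F : Type) [Group F] : TrAlg (MonoidAlgebra ℂ F) := TrAlg.c.ma F

/-! ## Dominated elements -/

/-- `κ 1 - a^* a` is a sum of elements `v^* v`. -/
def Dominated {A : Type} [Ring A] [StarRing A] [Algebra ℂ A] (a : A) : Prop :=
  ∃ (κ : ℝ) (l : List A), star a * a + (l.map fun v => star v * v).sum = (κ : ℂ) • (1 : A)

/-! ## Conditional expectation data and covariances -/

/-- A trace preserving `*`-homomorphism `Θ : B → A` and its adjoint `P : A → B`. -/
structure CondPair {A B : Type} [Ring A] [StarRing A] [Algebra ℂ A] [Ring B] [StarRing B]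
    [Algebra ℂ B] (TA : TrAlg A) (TB : TrAlg B) where
  /-- the homomorphism -/
  Θ : B →⋆ₐ[ℂ] A
  /-- its adjoint for the traces -/
  P : A →ₗ[ℂ] B
  tr_Θ : ∀ b, TA.τ (Θ b) = TB.τ b
  adj : ∀ x b, TB.τ (P x * b) = TA.τ (x * Θ b)

/-- A unital tracially symmetric completely positive map `E` of `A`. -/
structure Cov {A : Type} [Ring A] [StarRing A] [Algebra ℂ A] (T : TrAlg A) where
  /-- the map -/
  E : A →ₗ[ℂ] A
  E_star : ∀ x, E (star x) = star (E x)
  E_one : E 1 = 1
  E_symm : ∀ x y, T.τ (E x * y) = T.τ (x * E y)
  E_cp : ∀ (n : Type) [Fintype n] (H : n → n → A),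
    (∀ c : n → A, 0 ≤ ∑ i, ∑ j, T.τ (star (c i) * H i j * c j)) →
    ∀ c : n → A, 0 ≤ ∑ i, ∑ j, T.τ (star (c i) * E (H i j) * c j)

/-- The kernel of the Fock space. The nonempty list `[x_0, ..., x_k]` stands for
`x_0 ⊗ ... ⊗ x_k`; `form h X Y = τ(x_k^* E(... x_1^* E(x_0^* h y_0) y_1 ...) y_k)` when `X`,
`Y` are nonempty of the same length and `0` otherwise. -/
def form {A : Type} [Ring A] [StarRing A] [Algebra ℂ A] {T : TrAlg A} (C : Cov T) :
    A → List A → List A → ℂ
  | h, [x], [y] => T.τ (star x * h * y)
  | h, x :: x' :: X, y :: y' :: Y => form C (C.E (star x * h * y)) (x' :: X) (y' :: Y)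
  | _, _, _ => 0

/-- `x_0 ⊗ ... ⊗ x_k ↦ x_k^* ⊗ ... ⊗ x_0^*`. -/
def revStar {A : Type} [Ring A] [StarRing A] (X : List A) : List A := (X.map star).reverse

end

end MP8a6869
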