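import Pool.Agent.Work.MP_8a6869_an.Stmts

/-!
# MP_8a6869_an, item D0: decomposable operators
-/

namespace Pool.Agent.Work.MP_8a6869_an

open MeasureTheory Filter Topology
open scoped ENNReal

namespace D0

variable {Y : Type} [MeasurableSpace Y] {ν : Measure Y} {E : Type} [NormedAddCommGroup E]
  [InnerProductSpace ℂ E]

theorem aesm (D : Y → E →L[ℂ] E) (hD : ∀ v : E, AEStronglyMeasurable (fun y => D y v) ν)
    (f : Y → E) (hf : AEStronglyMeasurable f ν) :
    AEStronglyMeasurable (fun y => D y (f y)) ν := by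
  classical
  have key : ∀ s : SimpleFunc Y E, AEStronglyMeasurable (fun y => D y (s y)) ν := by
    intro s
    have h : (fun y => D y (s y)) =
        fun y => ∑ v ∈ s.range, (s ⁻¹' {v}).indicator (fun y => D y v) y := by
      funext y
      rw [Finset.sum_eq_single (s y)]
      · simp [Set.indicator]
      · intro b _ hb
        rw [Set.indicator_of_notMem]
        simpa using fun h => hb h.symm
      · intro h
        exact absurd (s.mem_range_self y) h
    rw [h]
    refine Finset.aestronglyMeasurable_fun_sum _ fun v _ => ?_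
    exact (hD v).indicator (s.measurableSet_fiber v)
  obtain ⟨g, hg, hfg⟩ := hf
  have h1 : AEStronglyMeasurable (fun y => D y (g y)) ν := by
    refine aestronglyMeasurable_of_tendsto_ae atTop (fun n => key (hg.approx n)) ?_
    refine Eventually.of_forall fun y => ?_
    exact ((D y).continuous.tendsto _).comp (hg.tendsto_approx y)
  exact h1.congr (hfg.mono fun y hy => by simp [hy])

end D0

theorem prfDecomp : claimDecomp := by
  intro Y _ ν E _ _ _ D C hC hD hm
  have hm' : ∀ f : Lp E 2 ν, AEStronglyMeasurable (fun y => D y (f y)) ν := fun f =>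
    D0.aesm D hm _ (Lp.aestronglyMeasurable f)
  have hb : ∀ f : Lp E 2 ν, ∀ᵐ y ∂ν, ‖D y (f y)‖ ≤ C * ‖f y‖ := fun f =>
    Eventually.of_forall fun y =>
      ((D y).le_opNorm _).trans (mul_le_mul_of_nonneg_right (hD y) (norm_nonneg _))
  have hL : ∀ f : Lp E 2 ν, MemLp (fun y => D y (f y)) 2 ν := fun f =>
    MemLp.of_le_mul (Lp.memLp f) (hm' f) (hb f)
  let T : Lp E 2 ν →ₗ[ℂ] Lp E 2 ν :=
    { toFun := fun f => (hL f).toLp _
      map_add' := by
        intro f g
        apply Lp.ext
        filter_upwards [(hL (f + g)).coeFn_toLp, (hL f).coeFn_toLp, (hL g).coeFn_toLp,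
          Lp.coeFn_add f g, Lp.coeFn_add ((hL f).toLp _) ((hL g).toLp _)] with y h1 h2 h3 h4 h5
        rw [h1, h5, Pi.add_apply, h2, h3, h4, Pi.add_apply, map_add]
      map_smul' := by
        intro c f
        apply Lp.ext
        filter_upwards [(hL (c • f)).coeFn_toLp, (hL f).coeFn_toLp,
          Lp.coeFn_smul c f, Lp.coeFn_smul c ((hL f).toLp _)] with y h1 h2 h4 h5
        rw [h1, RingHom.id_apply, h5, Pi.smul_apply, h2, h4, Pi.smul_apply, map_smul] }
  have hT : ∀ f : Lp E 2 ν, ‖T f‖ ≤ C * ‖f‖ := by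
    intro f
    refine Lp.norm_le_mul_norm_of_ae_le_mul ?_
    filter_upwards [(hL f).coeFn_toLp, hb f] with y h1 h2
    change ‖((hL f).toLp _ : Y → E) y‖ ≤ _
    rw [h1]
    exact h2
  refine ⟨T.mkContinuous C hT, LinearMap.mkContinuous_norm_le T hC hT, fun f => ?_⟩
  exact (hL f).coeFn_toLp

end Pool.Agent.Work.MP_8a6869_an
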