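import Mathlib

/-!
# MP_8a6869_an: existentially closed group von Neumann algebras. Definitions.

Everything the final statement uses: tracial von Neumann algebras, II_1 factors, embeddings,
existential embeddings (with respect to the tracial ultrapower), existentially closed
II_1 factors, and the group von Neumann algebra `LG G`.
-/

namespace MP8a6869

open scoped InnerProductSpace ComplexOrder ENNReal
open Filter Topology

noncomputable section

/-! ## Commutants -/

section Commutant

variable {H : Type} [NormedAddCommGroup H] [InnerProductSpace ℂ H] [CompleteSpace H]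

/-- The commutant of a set `S` of bounded operators and of their adjoints; it is a
von Neumann algebra. -/
def commutantVNA (S : Set (H →L[ℂ] H)) : VonNeumannAlgebra H where
  toStarSubalgebra := StarSubalgebra.centralizer ℂ S
  centralizer_centralizer' := by
    change Set.centralizer (Set.centralizer ((StarSubalgebra.centralizer ℂ S : Set (H →L[ℂ] H)))) =
      ((StarSubalgebra.centralizer ℂ S : Set (H →L[ℂ] H)))
    rw [StarSubalgebra.coe_centralizer, Set.centralizer_centralizer_centralizer]

theorem mem_commutantVNA {S : Set (H →L[ℂ] H)} {x : H →L[ℂ] H} :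
    x ∈ commutantVNA S ↔ ∀ s ∈ S ∪ star S, s * x = x * s := by
  rw [← SetLike.mem_coe]
  exact Set.mem_centralizer_iff

/-- `x i` converges to `y` along the filter `l` in the weak operator topology. -/
def WOTTendsto {α : Type} (x : α → (H →L[ℂ] H)) (l : Filter α) (y : H →L[ℂ] H) : Prop :=
  ∀ η ζ : H, Tendsto (fun i => ⟪η, x i ζ⟫_ℂ) l (𝓝 ⟪η, y ζ⟫_ℂ)

end Commutant

/-! ## Tracial von Neumann algebras -/

/-- A tracial von Neumann algebra: a von Neumann algebra `alg` on a Hilbert space `H` with a
faithful normal tracial state `tr`. Normality is expressed as continuity on norm bounded sets for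
the weak operator topology (on bounded sets this topology is the ultraweak topology, so for linear
functionals this is ultraweak continuity). -/
structure TracialVNA where
  /-- the Hilbert space -/
  H : Type
  [nacg : NormedAddCommGroup H]
  [ips : InnerProductSpace ℂ H]
  [cs : CompleteSpace H]
  /-- the von Neumann algebra -/
  alg : VonNeumannAlgebra H
  /-- the trace -/
  tr : alg.toStarSubalgebra →ₗ[ℂ] ℂ
  tr_one : tr 1 = 1
  tr_nonneg : ∀ x, 0 ≤ tr (star x * x)
  tr_comm : ∀ x y, tr (x * y) = tr (y * x)
  tr_faithful : ∀ x, tr (star x * x) = 0 → x = 0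
  tr_normal : ∀ {α : Type} (l : Filter α) (x : α → alg.toStarSubalgebra)
    (y : alg.toStarSubalgebra) (C : ℝ), (∀ i, ‖x i‖ ≤ C) →
    WOTTendsto (fun i => (x i : H →L[ℂ] H)) l y → Tendsto (fun i => tr (x i)) l (𝓝 (tr y))

attribute [instance] TracialVNA.nacg TracialVNA.ips TracialVNA.cs

/-- The elements of a tracial von Neumann algebra. -/
abbrev TracialVNA.Elt (N : TracialVNA) : Type := N.alg.toStarSubalgebra

/-- `N` is a II_1 factor: it has trivial center and is infinite dimensional
(and it has a faithful normal tracial state, as every `TracialVNA`). -/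
structure TracialVNA.IsII1Factor (N : TracialVNA) : Prop where
  center_trivial : ∀ x : N.H →L[ℂ] N.H, x ∈ N.alg → x ∈ N.alg.commutant →
    ∃ c : ℂ, x = c • (1 : N.H →L[ℂ] N.H)
  infinite_dim : ¬ FiniteDimensional ℂ N.Elt

/-- An embedding of tracial von Neumann algebras: a unital normal trace preserving injective
`*`-homomorphism. -/
structure Embedding (N M : TracialVNA) where
  /-- the unital `*`-homomorphism -/
  hom : N.Elt →⋆ₐ[ℂ] M.Elt
  injective : Function.Injective hom
  tr_hom : ∀ x, M.tr (hom x) = N.tr x
  normal : ∀ {α : Type} (l : Filter α) (x : α → N.Elt) (y : N.Elt) (C : ℝ), (∀ i, ‖x i‖ ≤ C) →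
    WOTTendsto (fun i => (x i : N.H →L[ℂ] N.H)) l y →
    WOTTendsto (fun i => (hom (x i) : M.H →L[ℂ] M.H)) l (hom y)

/-- Two sequences in `N` represent the same element of the tracial ultrapower `N^U`:
`‖a n - b n‖_2 → 0` along `U`. -/
def USame (U : Ultrafilter ℕ) (N : TracialVNA) (a b : ℕ → N.Elt) : Prop :=
  Tendsto (fun n => N.tr (star (a n - b n) * (a n - b n))) U (𝓝 0)

/-- The embedding `ι : N → M` is existential: there is an embedding `θ` of `M` into the tracial
ultrapower `N^U` with `θ ∘ ι` the diagonal embedding. The map `θ : M → N^U` is given by bounded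
representing sequences `θ x : ℕ → N`; that it is a unital trace preserving `*`-homomorphism
is stated on representing sequences. (Injectivity and normality of `θ` follow from this, they are
not asked for; `N^U` consists of the bounded sequences in `N` modulo the sequences `z` with
`tr (z n ^* z n) → 0` along `U`, and the trace of the class of `z` is the limit of `tr (z n)`
along `U`.) -/
def IsExistential (U : Ultrafilter ℕ) {N M : TracialVNA} (ι : Embedding N M) : Prop :=
  ∃ θ : M.Elt → ℕ → N.Elt,
    (∀ x, ∃ C : ℝ, ∀ n, ‖θ x n‖ ≤ C) ∧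
    USame U N (θ 1) (fun _ => 1) ∧
    (∀ x y, USame U N (θ (x + y)) (fun n => θ x n + θ y n)) ∧
    (∀ (c : ℂ) (x), USame U N (θ (c • x)) (fun n => c • θ x n)) ∧
    (∀ x y, USame U N (θ (x * y)) (fun n => θ x n * θ y n)) ∧
    (∀ x, USame U N (θ (star x)) (fun n => star (θ x n))) ∧
    (∀ x, Tendsto (fun n => N.tr (θ x n)) U (𝓝 (M.tr x))) ∧
    (∀ x : N.Elt, USame U N (θ (ι.hom x)) (fun _ => x))

/-- `N` is existentially closed (with respect to the ultrafilter `U`): every embedding of `N` in a
II_1 factor is existential. -/
def IsExistentiallyClosed (U : Ultrafilter ℕ) (N : TracialVNA) : Prop :=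
  ∀ M : TracialVNA, M.IsII1Factor → ∀ ι : Embedding N M, IsExistential U ι

end

end MP8a6869
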