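import Pool.Agent.Work.MP_8a6869_an.Defs

/-!
# MP_8a6869_an: the group von Neumann algebra

`LG G` is the double commutant of the left regular representation of `G` on `ℓ²(G)`, with the
trace `x ↦ ⟪δ_1, x δ_1⟫`.
-/

namespace MP8a6869

open scoped InnerProductSpace ComplexOrder ENNReal
open Filter Topology

noncomputable section

/-- The Hilbert space `ℓ²(S)`. -/
abbrev ell2 (S : Type) : Type := lp (fun _ : S => ℂ) 2

/-- The basis vector `δ_s` of `ℓ²(S)`. -/
def delta {S : Type} (s : S) : ell2 S := by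
  classical exact lp.single 2 s (1 : ℂ)

theorem inner_delta_left {S : Type} (s : S) (f : ell2 S) : ⟪delta s, f⟫_ℂ = f s := by
  classical
  have := lp.inner_single_left (𝕜 := ℂ) (G := fun _ : S => ℂ) s (1 : ℂ) f
  rw [delta]
  rw [this]
  simp

theorem inner_delta_right {S : Type} (s : S) (f : ell2 S) :
    ⟪f, delta s⟫_ℂ = (starRingEnd ℂ) (f s) := by
  rw [← inner_conj_symm, inner_delta_left]

theorem memℓp_comp {S : Type} (σ : S ≃ S) (f : ell2 S) :
    Memℓp (fun s => (f (σ s) : ℂ)) (2 : ℝ≥0∞) := by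
  have h := lp.memℓp f
  have h2 : (0 : ℝ) < (2 : ℝ≥0∞).toReal := by norm_num
  rw [memℓp_gen_iff h2] at h ⊢
  exact (σ.summable_iff (f := fun s => ‖f s‖ ^ (2 : ℝ≥0∞).toReal)).2 h

/-- For a bijection `σ` of `S`, the isometry `f ↦ f ∘ σ` of `ℓ²(S)`. -/
def permL {S : Type} (σ : S ≃ S) : ell2 S →ₗᵢ[ℂ] ell2 S where
  toFun f := ⟨fun s => f (σ s), memℓp_comp σ f⟩
  map_add' f g := by ext s; rfl
  map_smul' c f := by ext s; rfl
  norm_map' f := by
    have h2 : (0 : ℝ) < (2 : ℝ≥0∞).toReal := by norm_num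
    rw [lp.norm_eq_tsum_rpow h2, lp.norm_eq_tsum_rpow h2]
    congr 1
    exact σ.tsum_eq (fun s => ‖f s‖ ^ (2 : ℝ≥0∞).toReal)

@[simp] theorem permL_apply {S : Type} (σ : S ≃ S) (f : ell2 S) (s : S) :
    (permL σ f) s = f (σ s) := rfl

theorem inner_permL {S : Type} (σ : S ≃ S) (f g : ell2 S) :
    ⟪permL σ f, g⟫_ℂ = ⟪f, permL σ.symm g⟫_ℂ := by
  rw [lp.inner_eq_tsum, lp.inner_eq_tsum,
    ← σ.tsum_eq (fun s => ⟪(f s : ℂ), (permL σ.symm g) s⟫_ℂ)]
  refine tsum_congr fun s => ?_
  simp

theorem adjoint_permL {S : Type} (σ : S ≃ S) :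
    star ((permL σ).toContinuousLinearMap) = (permL σ.symm).toContinuousLinearMap := by
  rw [ContinuousLinearMap.star_eq_adjoint]
  symm
  rw [ContinuousLinearMap.eq_adjoint_iff]
  intro f g
  have := inner_permL σ.symm f g
  simpa using this

variable (G : Type) [Group G]

/-- The left regular representation `(λ_g f)(x) = f(g⁻¹ x)` of `G` on `ℓ²(G)`. -/
def leftReg (g : G) : ell2 G →L[ℂ] ell2 G :=
  (permL (Equiv.mulLeft g⁻¹)).toContinuousLinearMap

/-- The right regular representation `(ρ_g f)(x) = f(x g)` of `G` on `ℓ²(G)`. -/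
def rightReg (g : G) : ell2 G →L[ℂ] ell2 G :=
  (permL (Equiv.mulRight g)).toContinuousLinearMap

@[simp] theorem leftReg_apply (g : G) (f : ell2 G) (x : G) : leftReg G g f x = f (g⁻¹ * x) := rfl

@[simp] theorem rightReg_apply (g : G) (f : ell2 G) (x : G) : rightReg G g f x = f (x * g) := rfl

theorem star_leftReg (g : G) : star (leftReg G g) = leftReg G g⁻¹ := by
  rw [leftReg, adjoint_permL]
  rfl

theorem star_rightReg (g : G) : star (rightReg G g) = rightReg G g⁻¹ := by
  rw [rightReg, adjoint_permL]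
  rfl

theorem leftReg_mul (g h : G) : leftReg G (g * h) = leftReg G g * leftReg G h := by
  ext f x
  simp [mul_assoc]

theorem leftReg_one : leftReg G 1 = 1 := by
  ext f x
  simp

theorem rightReg_mul (g h : G) : rightReg G (g * h) = rightReg G g * rightReg G h := by
  ext f x
  simp [mul_assoc]

theorem rightReg_one : rightReg G 1 = 1 := by
  ext f x
  simp

theorem leftReg_rightReg (g h : G) : leftReg G g * rightReg G h = rightReg G h * leftReg G g := by
  ext f x
  simp [mul_assoc]

theorem leftReg_delta (g x : G) : leftReg G g (delta x) = delta (g * x) := by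
  classical
  ext y
  rw [leftReg_apply, delta, delta, lp.single_apply, lp.single_apply, Pi.single_apply,
    Pi.single_apply]
  by_cases h : g⁻¹ * y = x
  · rw [if_pos h, if_pos (by rw [← h]; group)]
  · rw [if_neg h, if_neg (by intro h'; apply h; rw [h']; group)]

theorem rightReg_delta (g x : G) : rightReg G g (delta x) = delta (x * g⁻¹) := by
  classical
  ext y
  rw [rightReg_apply, delta, delta, lp.single_apply, lp.single_apply, Pi.single_apply,
    Pi.single_apply]
  by_cases h : y * g = x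
  · rw [if_pos h, if_pos (by rw [← h]; group)]
  · rw [if_neg h, if_neg (by intro h'; apply h; rw [h']; group)]

/-- The von Neumann algebra `L(G) = λ(G)''`. -/
def LGalg : VonNeumannAlgebra (ell2 G) := (commutantVNA (Set.range (leftReg G))).commutant

theorem leftReg_mem (g : G) : leftReg G g ∈ LGalg G := by
  rw [LGalg, VonNeumannAlgebra.mem_commutant_iff]
  intro y hy
  rw [mem_commutantVNA] at hy
  exact (hy _ (Or.inl ⟨g, rfl⟩)).symm

/-- Elements of `L(G)` commute with the right regular representation. -/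
theorem comm_rightReg {x : ell2 G →L[ℂ] ell2 G} (hx : x ∈ LGalg G) (g : G) :
    rightReg G g * x = x * rightReg G g := by
  rw [LGalg, VonNeumannAlgebra.mem_commutant_iff] at hx
  refine hx _ ?_
  rw [mem_commutantVNA]
  rintro s (⟨h, rfl⟩ | hs)
  · exact leftReg_rightReg G h g
  · obtain ⟨h, hh⟩ := hs
    have : s = leftReg G h⁻¹ := by
      rw [← star_leftReg, hh, star_star]
    rw [this]
    exact leftReg_rightReg G h⁻¹ g

/-- Elements of `L(G)` commute with everything that commutes with the left regular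
representation. -/
theorem comm_of_comm_leftReg {x y : ell2 G →L[ℂ] ell2 G} (hx : x ∈ LGalg G)
    (hy : ∀ g, leftReg G g * y = y * leftReg G g) : y * x = x * y := by
  rw [LGalg, VonNeumannAlgebra.mem_commutant_iff] at hx
  refine hx _ ?_
  rw [mem_commutantVNA]
  rintro s (⟨h, rfl⟩ | hs)
  · exact hy h
  · obtain ⟨h, hh⟩ := hs
    have : s = leftReg G h⁻¹ := by
      rw [← star_leftReg, hh, star_star]
    rw [this]
    exact hy h⁻¹

/-- `x δ_g = ρ(g⁻¹) x δ_1`. -/
theorem apply_delta {x : ell2 G →L[ℂ] ell2 G} (hx : x ∈ LGalg G) (g h : G) :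
    (x (delta g)) h = (x (delta 1)) (h * g⁻¹) := by
  have h1 : delta g = rightReg G g⁻¹ (delta (1 : G)) := by
    rw [rightReg_delta]; simp
  rw [h1, ← mul_apply_eq_comp, ← comm_rightReg G hx, mul_apply_eq_comp,
    rightReg_apply]

theorem star_apply_delta {x : ell2 G →L[ℂ] ell2 G} (hx : x ∈ LGalg G) (h : G) :
    ((star x) (delta 1)) h = (starRingEnd ℂ) ((x (delta 1)) h⁻¹) := by
  rw [← inner_delta_left, ContinuousLinearMap.star_eq_adjoint,
    ContinuousLinearMap.adjoint_inner_right, inner_delta_right, apply_delta G hx]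
  simp

theorem ext_of_delta {x : ell2 G →L[ℂ] ell2 G} (hx : x ∈ LGalg G) (h0 : x (delta 1) = 0) :
    x = 0 := by
  have h1 : ∀ g : G, x (delta g) = 0 := by
    intro g
    ext h
    rw [apply_delta G hx, h0]
    rfl
  have h2 : ∀ f : ell2 G, x f = 0 := by
    intro f
    ext h
    have h3 : ∀ g : G, ((star x) (delta h)) g = 0 := by
      intro g
      rw [← inner_delta_left, ContinuousLinearMap.star_eq_adjoint,
        ContinuousLinearMap.adjoint_inner_right, h1, inner_zero_left]
    have h4 : (star x) (delta h) = 0 := by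
      ext g
      exact h3 g
    rw [← inner_delta_left, ← ContinuousLinearMap.adjoint_inner_left,
      ← ContinuousLinearMap.star_eq_adjoint, h4, inner_zero_left]
    rfl
  ext f : 1
  rw [h2 f]
  rfl

/-- The trace `x ↦ ⟪δ_1, x δ_1⟫` of `L(G)`. -/
def LGtr : (LGalg G).toStarSubalgebra →ₗ[ℂ] ℂ where
  toFun x := ⟪delta (1 : G), (x : ell2 G →L[ℂ] ell2 G) (delta 1)⟫_ℂ
  map_add' x y := by
    rw [← inner_add_right]
    rfl
  map_smul' c x := by
    rw [RingHom.id_apply, smul_eq_mul, ← inner_smul_right]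
    rfl

theorem LGtr_apply (x : (LGalg G).toStarSubalgebra) :
    LGtr G x = ⟪delta (1 : G), (x : ell2 G →L[ℂ] ell2 G) (delta 1)⟫_ℂ := rfl

theorem LGtr_star_mul (x y : (LGalg G).toStarSubalgebra) :
    LGtr G (star x * y) =
      ⟪(x : ell2 G →L[ℂ] ell2 G) (delta (1 : G)), (y : ell2 G →L[ℂ] ell2 G) (delta 1)⟫_ℂ := by
  rw [LGtr_apply]
  change ⟪delta (1 : G), (star (x : ell2 G →L[ℂ] ell2 G)) ((y : ell2 G →L[ℂ] ell2 G)
    (delta 1))⟫_ℂ = _
  rw [ContinuousLinearMap.star_eq_adjoint, ContinuousLinearMap.adjoint_inner_right]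

theorem LGtr_comm (x y : (LGalg G).toStarSubalgebra) :
    LGtr G (x * y) = LGtr G (y * x) := by
  have key : ∀ x y : (LGalg G).toStarSubalgebra, LGtr G (x * y) =
      ∑' g : G, (y : ell2 G →L[ℂ] ell2 G) (delta 1) g *
        (x : ell2 G →L[ℂ] ell2 G) (delta 1) g⁻¹ := by
    intro x y
    have h := LGtr_star_mul G (star x) y
    rw [star_star] at h
    rw [h, lp.inner_eq_tsum]
    refine tsum_congr fun g => ?_
    have h1 := star_apply_delta G x.2 g
    change ⟪((star (x : ell2 G →L[ℂ] ell2 G)) (delta 1)) g, _⟫_ℂ = _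
    rw [h1]
    simp [mul_comm]
  rw [key, key, ← (Equiv.inv G).tsum_eq]
  refine tsum_congr fun g => ?_
  simp [mul_comm]

/-- **The group von Neumann algebra** `L(G)` of a discrete group `G`: the double commutant of the
left regular representation on `ℓ²(G)`, with the canonical trace `τ(x) = ⟨x δ_e, δ_e⟩`. -/
def LG : TracialVNA where
  H := ell2 G
  alg := LGalg G
  tr := LGtr G
  tr_one := by
    rw [LGtr_apply]
    change ⟪delta (1 : G), (delta (1 : G) : ell2 G)⟫_ℂ = 1
    classical
    rw [inner_delta_left, delta, lp.single_apply_self]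
  tr_nonneg x := by
    rw [LGtr_star_mul, inner_self_eq_norm_sq_to_K]
    simp
  tr_comm := LGtr_comm G
  tr_faithful x hx := by
    rw [LGtr_star_mul, inner_self_eq_zero] at hx
    exact Subtype.ext (ext_of_delta G x.2 hx)
  tr_normal l x y C _ h := h _ _

end

end MP8a6869
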