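import Pool.Agent.Work.MP_8a6869_an.LG

/-!
# MP_8a6869_an: the definitions used by the final statement

Tracial von Neumann algebras, II_1 factors, embeddings, existential embeddings (with respect to
the tracial ultrapower), existentially closed II_1 factors, and the group von Neumann algebra
`LG G`.
-/

namespace MP8a6869Pub

open scoped InnerProductSpace ComplexOrder ENNReal
open Filter Topology

noncomputable section

section Algebras

variable {H : Type} [NormedAddCommGroup H] [InnerProductSpace ℂ H] [CompleteSpace H]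

/-- The elements of a von Neumann algebra `A` of bounded operators on `H`, a `*`-algebra. -/
def Elt (A : VonNeumannAlgebra H) : Type := A.toStarSubalgebra

instance instRingElt (A : VonNeumannAlgebra H) : Ring (Elt A) :=
  inferInstanceAs (Ring A.toStarSubalgebra)

instance instAlgebraElt (A : VonNeumannAlgebra H) : Algebra ℂ (Elt A) :=
  inferInstanceAs (Algebra ℂ A.toStarSubalgebra)

instance instStarRingElt (A : VonNeumannAlgebra H) : StarRing (Elt A) :=
  inferInstanceAs (StarRing A.toStarSubalgebra)

/-- An element of a von Neumann algebra as a bounded operator. -/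
def op {A : VonNeumannAlgebra H} (x : Elt A) : H →L[ℂ] H := x.1

/-- `x i` converges to `y` in the weak operator topology along `l`, and is norm bounded. -/
def BddWOT {A : VonNeumannAlgebra H} {α : Type} (x : α → Elt A) (l : Filter α)
    (y : Elt A) : Prop :=
  (∃ C : ℝ, ∀ i, ‖op (x i)‖ ≤ C) ∧
    ∀ η ζ : H, Tendsto (fun i => ⟪η, op (x i) ζ⟫_ℂ) l (𝓝 ⟪η, op y ζ⟫_ℂ)

/-- The commutant of a set of operators together with their adjoints. -/
def commutantVNA (S : Set (H →L[ℂ] H)) : VonNeumannAlgebra H where
  toStarSubalgebra := StarSubalgebra.centralizer ℂ S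
  centralizer_centralizer' := by
    change Set.centralizer (Set.centralizer ((StarSubalgebra.centralizer ℂ S : Set (H →L[ℂ] H)))) =
      ((StarSubalgebra.centralizer ℂ S : Set (H →L[ℂ] H)))
    rw [StarSubalgebra.coe_centralizer, Set.centralizer_centralizer_centralizer]

end Algebras

/-- A tracial von Neumann algebra: a von Neumann algebra `alg` on a Hilbert space `H` with a
faithful normal tracial state `tr`. A linear functional is normal if it is continuous on norm
bounded sets for the weak operator topology (this is the same as being ultraweakly continuous). -/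
structure TracialVNA where
  /-- the Hilbert space -/
  H : Type
  [nacg : NormedAddCommGroup H]
  [ips : InnerProductSpace ℂ H]
  [cs : CompleteSpace H]
  /-- the von Neumann algebra -/
  alg : VonNeumannAlgebra H
  /-- the trace -/
  tr : Elt alg → ℂ
  tr_add : ∀ x y, tr (x + y) = tr x + tr y
  tr_smul : ∀ (c : ℂ) (x), tr (c • x) = c * tr x
  tr_one : tr 1 = 1
  tr_nonneg : ∀ x, 0 ≤ tr (star x * x)
  tr_comm : ∀ x y, tr (x * y) = tr (y * x)
  tr_faithful : ∀ x, tr (star x * x) = 0 → x = 0
  tr_normal : ∀ {α : Type} (l : Filter α) (x : α → Elt alg) (y : Elt alg),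
    BddWOT x l y → Tendsto (fun i => tr (x i)) l (𝓝 (tr y))

attribute [instance] TracialVNA.nacg TracialVNA.ips TracialVNA.cs

/-- The elements of `N`. -/
def TracialVNA.E (N : TracialVNA) : Type := Elt N.alg

instance instRingE (N : TracialVNA) : Ring N.E := inferInstanceAs (Ring (Elt N.alg))

instance instAlgebraE (N : TracialVNA) : Algebra ℂ N.E := inferInstanceAs (Algebra ℂ (Elt N.alg))

instance instStarRingE (N : TracialVNA) : StarRing N.E := inferInstanceAs (StarRing (Elt N.alg))

/-- The trace of `N`. -/
def TracialVNA.τ (N : TracialVNA) (x : N.E) : ℂ := N.tr x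

/-- The operator norm of `N`. -/
def TracialVNA.opNorm (N : TracialVNA) (x : N.E) : ℝ := ‖op (A := N.alg) x‖

/-- `N` is a II_1 factor: its center is trivial and it is infinite dimensional (and it has a
faithful normal tracial state, as every `TracialVNA`). -/
def TracialVNA.IsII1Factor (N : TracialVNA) : Prop :=
  (∀ x : N.E, (∀ y : N.E, y * x = x * y) → ∃ c : ℂ, x = c • (1 : N.E)) ∧
    ¬ FiniteDimensional ℂ N.E

/-- An embedding of tracial von Neumann algebras: a unital normal trace preserving injective
`*`-homomorphism. Normal means continuous on norm bounded sets for the weak operator topologies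
(which is the same as ultraweakly continuous). -/
structure Embedding (N M : TracialVNA) where
  /-- the unital `*`-homomorphism -/
  hom : N.E →⋆ₐ[ℂ] M.E
  injective : Function.Injective hom
  tr_hom : ∀ x, M.τ (hom x) = N.τ x
  normal : ∀ {α : Type} (l : Filter α) (x : α → N.E) (y : N.E),
    BddWOT (A := N.alg) x l y → BddWOT (A := M.alg) (fun i => hom (x i)) l (hom y)

/-- Two sequences in `N` represent the same element of the tracial ultrapower `N^U`:
`‖a n - b n‖_2 → 0` along `U`. -/
def USame (U : Ultrafilter ℕ) (N : TracialVNA) (a b : ℕ → N.E) : Prop :=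
  Tendsto (fun n => N.τ (star (a n - b n) * (a n - b n))) U (𝓝 0)

/-- The embedding `ι : N → M` is existential: there is an embedding `θ` of `M` into the tracial
ultrapower `N^U` with `θ ∘ ι` the diagonal embedding. The map `θ : M → N^U` is given by bounded
representing sequences `θ x : ℕ → N`; that it is a unital trace preserving `*`-homomorphism
is stated on representing sequences. (Injectivity and normality of `θ` follow from this, they are
not asked for; `N^U` consists of the bounded sequences in `N` modulo the sequences `z` with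
`τ (z n ^* z n) → 0` along `U`, and the trace of the class of `z` is the limit of `τ (z n)`
along `U`.) -/
def IsExistential (U : Ultrafilter ℕ) {N M : TracialVNA} (ι : Embedding N M) : Prop :=
  ∃ θ : M.E → ℕ → N.E,
    (∀ x, ∃ C : ℝ, ∀ n, N.opNorm (θ x n) ≤ C) ∧
    USame U N (θ 1) (fun _ => 1) ∧
    (∀ x y, USame U N (θ (x + y)) (fun n => θ x n + θ y n)) ∧
    (∀ (c : ℂ) (x), USame U N (θ (c • x)) (fun n => c • θ x n)) ∧
    (∀ x y, USame U N (θ (x * y)) (fun n => θ x n * θ y n)) ∧
    (∀ x, USame U N (θ (star x)) (fun n => star (θ x n))) ∧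
    (∀ x, Tendsto (fun n => N.τ (θ x n)) U (𝓝 (M.τ x))) ∧
    (∀ x : N.E, USame U N (θ (ι.hom x)) (fun _ => x))

/-- `N` is separable: it acts on a separable Hilbert space (then its predual is separable). -/
def TracialVNA.IsSeparable (N : TracialVNA) : Prop := TopologicalSpace.SeparableSpace N.H

/-- The separable II_1 factor `N` is existentially closed (with respect to the ultrafilter `U`):
every embedding of `N` in a separable II_1 factor is existential. -/
def IsExistentiallyClosed (U : Ultrafilter ℕ) (N : TracialVNA) : Prop :=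
  ∀ M : TracialVNA, M.IsII1Factor → M.IsSeparable → ∀ ι : Embedding N M, IsExistential U ι


/-! ## The group von Neumann algebra -/

/-- The Hilbert space `ℓ²(S)`. -/
def ell2 (S : Type) : Type := lp (fun _ : S => ℂ) 2

instance instNormedEll2 (S : Type) : NormedAddCommGroup (ell2 S) :=
  lp.normedAddCommGroup (E := fun _ : S => ℂ) (p := 2)

instance instInnerEll2 (S : Type) : InnerProductSpace ℂ (ell2 S) :=
  lp.instInnerProductSpace (𝕜 := ℂ) (G := fun _ : S => ℂ)

instance instCompleteEll2 (S : Type) : CompleteSpace (ell2 S) :=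
  lp.completeSpace (E := fun _ : S => ℂ) (p := 2)

/-- The basis vector `δ_s` of `ℓ²(S)`. -/
def delta {S : Type} (s : S) : ell2 S := by
  classical exact lp.single 2 s (1 : ℂ)

theorem memℓp_comp {S : Type} (σ : S ≃ S) (f : ell2 S) :
    Memℓp (fun s => (f.1 (σ s) : ℂ)) (2 : ℝ≥0∞) :=
  MP8a6869.memℓp_comp σ f

/-- For a bijection `σ` of `S`, the map `f ↦ f ∘ σ` of `ℓ²(S)`. -/
def permFun {S : Type} (σ : S ≃ S) (f : ell2 S) : ell2 S := ⟨fun s => f.1 (σ s), memℓp_comp σ f⟩

theorem permFun_add {S : Type} (σ : S ≃ S) (f g : ell2 S) :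
    permFun σ (f + g) = permFun σ f + permFun σ g := rfl

theorem permFun_smul {S : Type} (σ : S ≃ S) (c : ℂ) (f : ell2 S) :
    permFun σ (c • f) = c • permFun σ f := rfl

theorem norm_permFun {S : Type} (σ : S ≃ S) (f : ell2 S) : ‖permFun σ f‖ = ‖f‖ :=
  (MP8a6869.permL σ).norm_map f

theorem norm_permFun_le {S : Type} (σ : S ≃ S) (f : ell2 S) : ‖permFun σ f‖ ≤ 1 * ‖f‖ := by
  rw [one_mul, norm_permFun]

/-- For a bijection `σ` of `S`, the isometry `f ↦ f ∘ σ` of `ℓ²(S)`. -/
def permL {S : Type} (σ : S ≃ S) : ell2 S →L[ℂ] ell2 S :=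
  LinearMap.mkContinuous
    { toFun := permFun σ, map_add' := permFun_add σ, map_smul' := permFun_smul σ } 1
    (norm_permFun_le σ)

/-- The left regular representation `(λ_g f)(x) = f(g⁻¹ x)` of `G` on `ℓ²(G)`. -/
def leftReg (G : Type) [Group G] (g : G) : ell2 G →L[ℂ] ell2 G := permL (Equiv.mulLeft g⁻¹)

/-- The von Neumann algebra `L(G) = λ(G)''`. -/
def LGalg (G : Type) [Group G] : VonNeumannAlgebra (ell2 G) :=
  (commutantVNA (Set.range (leftReg G))).commutant

/-- The trace `x ↦ ⟪δ_1, x δ_1⟫` of `L(G)`. -/
def LGtr (G : Type) [Group G] (x : Elt (LGalg G)) : ℂ :=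
  ⟪delta (1 : G), op x (delta 1)⟫_ℂ

section

variable (G : Type) [Group G]

theorem LGtr_add (x y : Elt (LGalg G)) : LGtr G (x + y) = LGtr G x + LGtr G y :=
  map_add (MP8a6869.LGtr G) x y

theorem LGtr_smul (c : ℂ) (x : Elt (LGalg G)) : LGtr G (c • x) = c * LGtr G x :=
  map_smul (MP8a6869.LGtr G) c x

theorem LGtr_one : LGtr G 1 = 1 := (MP8a6869.LG G).tr_one

theorem LGtr_nonneg (x : Elt (LGalg G)) : 0 ≤ LGtr G (star x * x) := (MP8a6869.LG G).tr_nonneg x

theorem LGtr_comm (x y : Elt (LGalg G)) : LGtr G (x * y) = LGtr G (y * x) :=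
  (MP8a6869.LG G).tr_comm x y

theorem LGtr_faithful (x : Elt (LGalg G)) (h : LGtr G (star x * x) = 0) : x = 0 :=
  (MP8a6869.LG G).tr_faithful x h

theorem LGtr_normal {α : Type} (l : Filter α) (x : α → Elt (LGalg G)) (y : Elt (LGalg G))
    (h : BddWOT x l y) : Tendsto (fun i => LGtr G (x i)) l (𝓝 (LGtr G y)) := h.2 _ _

end

/-- **The group von Neumann algebra** `L(G)` of a discrete group `G`: the double commutant of the
left regular representation on `ℓ²(G)`, with the canonical trace `τ(x) = ⟨x δ_e, δ_e⟩`. -/
def LG (G : Type) [Group G] : TracialVNA where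
  H := ell2 G
  alg := LGalg G
  tr := LGtr G
  tr_add := LGtr_add G
  tr_smul := LGtr_smul G
  tr_one := LGtr_one G
  tr_nonneg := LGtr_nonneg G
  tr_comm := LGtr_comm G
  tr_faithful := LGtr_faithful G
  tr_normal := LGtr_normal G

end

end MP8a6869Pub
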