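import Pool.Agent.Work.MP_8a6869_an.LG
import Pool.Agent.Work.MP_8a6869_an.Alg

/-!
# MP_8a6869_an: the Fock space systems, the von Neumann algebra of a system, the twisted
representation `theta` of a free group
-/

namespace MP8a6869

open scoped InnerProductSpace ComplexOrder
open MonoidAlgebra Filter Topology

noncomputable section

/-! ## Fock systems -/

/-- The Fock space of the covariance `C`, with its left operators. `vec [x_0, ..., x_k]` is the
vector `x_0 ⊗ ... ⊗ x_k`. -/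
structure LeftSys {A : Type} [Ring A] [StarRing A] [Algebra ℂ A] {T : TrAlg A} (C : Cov T) where
  /-- the Hilbert space -/
  H : Type
  [nacg : NormedAddCommGroup H]
  [ips : InnerProductSpace ℂ H]
  [cs : CompleteSpace H]
  /-- elementary tensors -/
  vec : List A → H
  inner_vec : ∀ X Y, ⟪vec X, vec Y⟫_ℂ = form C 1 X Y
  dense : (Submodule.span ℂ (Set.range vec)).topologicalClosure = ⊤
  /-- left multiplication -/
  lam : A → H →L[ℂ] H
  /-- the semicircular element, creation plus annihilation on the left -/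
  D : H →L[ℂ] H
  lam_vec : ∀ a x X, lam a (vec (x :: X)) = vec ((a * x) :: X)
  D_one : ∀ x, D (vec [x]) = vec [1, x]
  D_two : ∀ x y X, D (vec (x :: y :: X)) = vec (1 :: x :: y :: X) + vec ((C.E x * y) :: X)
  lam_star : ∀ a, star (lam a) = lam (star a)
  D_star : star D = D

attribute [instance] LeftSys.nacg LeftSys.ips LeftSys.cs

/-- A Fock system: the left operators `lam a`, `D` and the right operators `rho a`, `Dr`, which
commute with them. -/
structure FockSys {A : Type} [Ring A] [StarRing A] [Algebra ℂ A] {T : TrAlg A} (C : Cov T)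
    extends LeftSys C where
  /-- right multiplication -/
  rho : A → H →L[ℂ] H
  /-- creation plus annihilation on the right -/
  Dr : H →L[ℂ] H
  rho_vec : ∀ a x X, rho a (vec (X ++ [x])) = vec (X ++ [x * a])
  Dr_one : ∀ x, Dr (vec [x]) = vec [x, 1]
  Dr_two : ∀ x y X, Dr (vec (X ++ [x, y])) = vec (X ++ [x, y, 1]) + vec (X ++ [x * C.E y])
  rho_star : ∀ a, star (rho a) = rho (star a)
  Dr_star : star Dr = Dr
  lam_rho : ∀ a b, lam a * rho b = rho b * lam a
  lam_Dr : ∀ a, lam a * Dr = Dr * lam a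
  D_rho : ∀ b, D * rho b = rho b * D
  D_Dr : D * Dr = Dr * D

section FockVNA

variable {A : Type} [Ring A] [StarRing A] [Algebra ℂ A] {T : TrAlg A} {C : Cov T}

/-- The von Neumann algebra of a Fock system: the commutant of the right operators. -/
def FockSys.alg (F : FockSys C) : VonNeumannAlgebra F.H :=
  commutantVNA (Set.range F.rho ∪ {F.Dr})

/-- The vacuum vector. -/
def FockSys.Om (F : FockSys C) : F.H := F.vec [1]

theorem FockSys.mem_alg (F : FockSys C) {x : F.H →L[ℂ] F.H} :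
    x ∈ F.alg ↔ (∀ a, F.rho a * x = x * F.rho a) ∧ F.Dr * x = x * F.Dr := by
  rw [FockSys.alg, mem_commutantVNA]
  constructor
  · intro h
    exact ⟨fun a => h _ (Or.inl (Or.inl ⟨a, rfl⟩)), h _ (Or.inl (Or.inr rfl))⟩
  · rintro ⟨h1, h2⟩ s ((⟨a, rfl⟩ | hs) | hs)
    · exact h1 a
    · rw [Set.mem_singleton_iff] at hs
      rw [hs, h2]
    · rcases hs with ⟨a, ha⟩ | hs
      · have : s = F.rho (star a) := by rw [← F.rho_star, ha, star_star]
        rw [this]; exact h1 _
      · rw [Set.mem_singleton_iff] at hs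
        have : s = F.Dr := by rw [← star_star s, hs, F.Dr_star]
        rw [this, h2]

theorem FockSys.lam_mem (F : FockSys C) (a : A) : F.lam a ∈ F.alg :=
  F.mem_alg.2 ⟨fun b => (F.lam_rho a b).symm, (F.lam_Dr a).symm⟩

theorem FockSys.D_mem (F : FockSys C) : F.D ∈ F.alg :=
  F.mem_alg.2 ⟨fun b => (F.D_rho b).symm, F.D_Dr.symm⟩

/-- The vacuum state of a Fock system, as a linear functional. -/
def FockSys.tr (F : FockSys C) : F.alg.toStarSubalgebra →ₗ[ℂ] ℂ where
  toFun x := ⟪F.Om, (x : F.H →L[ℂ] F.H) F.Om⟫_ℂ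
  map_add' x y := by
    rw [← inner_add_right]
    rfl
  map_smul' c x := by
    rw [RingHom.id_apply, smul_eq_mul, ← inner_smul_right]
    rfl

theorem FockSys.tr_apply (F : FockSys C) (x : F.alg.toStarSubalgebra) :
    F.tr x = ⟪F.Om, (x : F.H →L[ℂ] F.H) F.Om⟫_ℂ := rfl

theorem FockSys.tr_star_mul (F : FockSys C) (x y : F.alg.toStarSubalgebra) :
    F.tr (star x * y) =
      ⟪(x : F.H →L[ℂ] F.H) F.Om, (y : F.H →L[ℂ] F.H) F.Om⟫_ℂ := by
  rw [FockSys.tr_apply]
  change ⟪F.Om, (star (x : F.H →L[ℂ] F.H)) ((y : F.H →L[ℂ] F.H) F.Om)⟫_ℂ = _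
  rw [ContinuousLinearMap.star_eq_adjoint, ContinuousLinearMap.adjoint_inner_right]

/-- The vacuum state is tracial on the algebra of the system. -/
def FockSys.Tracial (F : FockSys C) : Prop :=
  ∀ x ∈ F.alg, ∀ y ∈ F.alg, ⟪F.Om, x (y F.Om)⟫_ℂ = ⟪F.Om, y (x F.Om)⟫_ℂ

/-- The vacuum vector is separating for the algebra of the system. -/
def FockSys.Separating (F : FockSys C) : Prop :=
  ∀ x ∈ F.alg, x F.Om = 0 → x = 0

/-- The tracial von Neumann algebra of a Fock system. -/
def FockSys.vna (F : FockSys C) (h1 : T.τ 1 = 1) (ht : F.Tracial) (hs : F.Separating) :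
    TracialVNA where
  H := F.H
  alg := F.alg
  tr := F.tr
  tr_one := by
    rw [FockSys.tr_apply]
    change ⟪F.Om, F.Om⟫_ℂ = 1
    rw [FockSys.Om, F.inner_vec, form, star_one, one_mul, one_mul, h1]
  tr_nonneg x := by
    rw [FockSys.tr_star_mul, inner_self_eq_norm_sq_to_K]
    simp
  tr_comm x y := ht x x.2 y y.2
  tr_faithful x hx := by
    rw [FockSys.tr_star_mul, inner_self_eq_zero] at hx
    exact Subtype.ext (hs x x.2 hx)
  tr_normal l x y Cst _ h := h _ _

end FockVNA

/-! ## The twisted representation of a free group -/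

/-- The coefficient of `b`. -/
def A1 : M3 := !![2 / 5, -(2 / 5), 0; -(2 / 5), 2 / 5, 0; 0, 0, 1]

/-- The coefficient of `b^2`. -/
def A2 : M3 := !![(3 / 5) * Complex.I, 0, 0; 0, -((3 / 5) * Complex.I), 0; 0, 0, 0]

/-- The coefficient of `b^3`. -/
def A3 : M3 := !![2 / 5, 2 / 5, 0; 2 / 5, 2 / 5, 0; 0, 0, 0]

theorem star_A1 : star A1 = A1 := by
  ext i j
  fin_cases i <;> fin_cases j <;> simp [A1, Matrix.star_apply]

theorem star_A2 : star A2 = -A2 := by
  ext i j
  fin_cases i <;> fin_cases j <;> simp [A2, Matrix.star_apply]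

theorem star_A3 : star A3 = A3 := by
  ext i j
  fin_cases i <;> fin_cases j <;> simp [A3, Matrix.star_apply]

set_option linter.unusedSimpArgs false
set_option linter.unreachableTactic false
set_option linter.unusedTactic false

theorem A_rel1 : A1 * A1 - A2 * A2 + A3 * A3 = 1 := by
  ext i j
  fin_cases i <;> fin_cases j <;>
    simp [A1, A2, A3, Matrix.mul_apply, Fin.sum_univ_three] <;> ring_nf <;> simp <;> norm_num

theorem A_rel2 : A1 * A2 = A2 * A3 := by
  ext i j
  fin_cases i <;> fin_cases j <;>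
    simp [A1, A2, A3, Matrix.mul_apply, Fin.sum_univ_three] <;> ring_nf

theorem A_rel3 : A2 * A1 = A3 * A2 := by
  ext i j
  fin_cases i <;> fin_cases j <;>
    simp [A1, A2, A3, Matrix.mul_apply, Fin.sum_univ_three] <;> ring_nf

theorem A_rel4 : A1 * A3 = 0 := by
  ext i j
  fin_cases i <;> fin_cases j <;>
    simp [A1, A2, A3, Matrix.mul_apply, Fin.sum_univ_three] <;> ring_nf

theorem A_rel5 : A3 * A1 = 0 := by
  ext i j
  fin_cases i <;> fin_cases j <;>
    simp [A1, A2, A3, Matrix.mul_apply, Fin.sum_univ_three] <;> ring_nf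

variable {G : Type} [Group G]

/-- The unitary `b A1 + b^2 A2 + b^3 A3` of `M_3(ℂ[G])`. -/
def Uelt (b : G) : AG G := single b A1 + single (b ^ 2) A2 + single (b ^ 3) A3

theorem star_Uelt (b : G) :
    star (Uelt b) = single b⁻¹ A1 - single (b⁻¹ ^ 2) A2 + single (b⁻¹ ^ 3) A3 := by
  have h2 : (single ((b ^ 2)⁻¹) (-A2) : AG G) = -single (b⁻¹ ^ 2) A2 := by
    rw [← inv_pow, eq_neg_iff_add_eq_zero, ← single_add, neg_add_cancel, single_zero]
  rw [Uelt, star_add, star_add, star_single_ma, star_single_ma, star_single_ma, star_A1, star_A2,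
    star_A3, h2, ← inv_pow, ← sub_eq_add_neg]

theorem single_neg_ma (b : G) (m : M3) : (single b (-m) : AG G) = -single b m := by
  rw [eq_neg_iff_add_eq_zero, ← single_add, neg_add_cancel, single_zero]

theorem Uelt_mul_star (b : G) : Uelt b * star (Uelt b) = 1 := by
  have e1 : b * b⁻¹ = 1 := mul_inv_cancel b
  have e2 : b * b⁻¹ ^ 2 = b⁻¹ := by group
  have e3 : b * b⁻¹ ^ 3 = b⁻¹ ^ 2 := by group
  have e4 : b ^ 2 * b⁻¹ = b := by group
  have e5 : b ^ 2 * b⁻¹ ^ 2 = 1 := by group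
  have e6 : b ^ 2 * b⁻¹ ^ 3 = b⁻¹ := by group
  have e7 : b ^ 3 * b⁻¹ = b ^ 2 := by group
  have e8 : b ^ 3 * b⁻¹ ^ 2 = b := by group
  have e9 : b ^ 3 * b⁻¹ ^ 3 = 1 := by group
  rw [star_Uelt, Uelt]
  simp only [add_mul, mul_add, mul_sub, sub_mul, single_mul_single, e1, e2, e3, e4, e5, e6, e7,
    e8, e9, A_rel2, A_rel3, A_rel4, A_rel5, single_zero]
  have h : (single 1 (A1 * A1) : AG G) - single 1 (A2 * A2) + single 1 (A3 * A3) = 1 := by
    rw [sub_eq_add_neg, ← single_neg_ma, ← single_add, ← single_add, ← sub_eq_add_neg, A_rel1,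
      one_def]
  rw [← h]
  abel

theorem star_mul_Uelt (b : G) : star (Uelt b) * Uelt b = 1 := by
  have e1 : b⁻¹ * b = 1 := inv_mul_cancel b
  have e2 : b⁻¹ * b ^ 2 = b := by group
  have e3 : b⁻¹ * b ^ 3 = b ^ 2 := by group
  have e4 : b⁻¹ ^ 2 * b = b⁻¹ := by group
  have e5 : b⁻¹ ^ 2 * b ^ 2 = 1 := by group
  have e6 : b⁻¹ ^ 2 * b ^ 3 = b := by group
  have e7 : b⁻¹ ^ 3 * b = b⁻¹ ^ 2 := by group
  have e8 : b⁻¹ ^ 3 * b ^ 2 = b⁻¹ := by group
  have e9 : b⁻¹ ^ 3 * b ^ 3 = 1 := by group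
  rw [star_Uelt, Uelt]
  simp only [add_mul, mul_add, mul_sub, sub_mul, single_mul_single, e1, e2, e3, e4, e5, e6, e7,
    e8, e9, A_rel2, A_rel3, A_rel4, A_rel5, single_zero]
  have h : (single 1 (A1 * A1) : AG G) - single 1 (A2 * A2) + single 1 (A3 * A3) = 1 := by
    rw [sub_eq_add_neg, ← single_neg_ma, ← single_add, ← single_add, ← sub_eq_add_neg, A_rel1,
      one_def]
  rw [← h]
  abel

/-- The unitary `Uelt b` as an element of the unitary group. -/
def Uunit (b : G) : unitary (AG G) := ⟨Uelt b, ⟨star_mul_Uelt b, Uelt_mul_star b⟩⟩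

/-- The representation of the free group `F_I` by unitaries of `M_3(ℂ[G])`, for
`φ : F_I → G`, sending the generator `b_i` to `Uelt (φ b_i)`. -/
def theta {I : ℕ} (φ : FreeGroup (Fin I) →* G) : FreeGroup (Fin I) →* unitary (AG G) :=
  FreeGroup.lift fun i => Uunit (φ (FreeGroup.of i))

theorem theta_of {I : ℕ} (φ : FreeGroup (Fin I) →* G) (i : Fin I) :
    (theta φ (FreeGroup.of i) : AG G) = Uelt (φ (FreeGroup.of i)) := by
  rw [theta, FreeGroup.lift_apply_of]
  rfl

end

end MP8a6869
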